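import Pool.Graph.R_pool_sql_team_seeded_5cf16337.K3h4.AN.Ch
import Pool.Graph.R_seed8.H4R2.AE.Goodg

/-! Gaussian disorder: concentration of the solution of the penalised equation with an arbitrary
mass, at the exact Gaussian scale. -/

set_option autoImplicit false
set_option linter.unusedSectionVars false
set_option linter.unusedVariables false

open scoped BigOperators
open MeasureTheory ProbabilityTheory Filter Topology

namespace Pool.Agent.H69.AN

open Pool.Agent.H4R2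
open Pool.Agent.H4R2.AE (T LapW Hop)
open Pool.Agent.H4R2.AE.Good (clamp good_clamp_le good_clamp_eq good_clamp_lip)
open Pool.Agent.K3h4.AN.Pe
open Pool.Agent.K3h4.AN.Pf
open Pool.Agent.K3h4.AN.Ch (bk pen bk_lin bk_abs)
open Pool.Agent.K3h4.AN.Tp (Bad meas_Bad)

variable {d L : ℕ} [NeZero L]

/-- the law of `σ ξ`, `ξ` standard Gaussian -/
noncomputable def gs (σ : ℝ) : Measure ℝ := Measure.map (fun t => σ * t) (gaussianReal 0 1)

instance (σ : ℝ) : IsProbabilityMeasure (gs σ) :=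
  Measure.isProbabilityMeasure_map (by fun_prop)

theorem gs_law (σ : ℝ) :
    Measure.map (fun (ξ : T d L → ℝ) (y : T d L) => σ * ξ y)
      (Measure.pi fun _ : T d L => gaussianReal 0 1) = Measure.pi fun _ : T d L => gs σ :=
  AE.Goodg.goodg_law σ

/-- sensitivity of the solution to one site in terms of the Green function -/
theorem sens (κ : ℝ) (hκ : 0 < κ) (R : ℝ) (hG : GH d L (κ * Real.exp (-(2 * (1 / 4)))) R)
    (σ : ℝ) (hσ : 0 < σ) (E : ℝ) (hE : |E| ≤ 1) (x : T d L) (ξ : T d L → ℝ) :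
    ∃ g : T d L → ℝ, (∀ z, 0 ≤ g z) ∧ ∑ z, g z ^ 2 ≤ Real.exp 1 ^ 2 * σ ^ 2 * R ∧
      ∀ (z : T d L) (s : ℝ), |W (bk 1 κ) 1 E (fun y => σ * Function.update ξ z s y) x -
        W (bk 1 κ) 1 E (fun y => σ * ξ y) x| ≤ |s - ξ z| * g z := by
  have hp := pen 1 κ one_pos hκ
  set V : T d L → ℝ := fun y => σ * ξ y with hV
  obtain ⟨Gr, hGr0, hu, hGr, _⟩ := W_green hp E hE V x
  refine ⟨fun z => Real.exp 1 * σ * Gr z, fun z => ?_, ?_, fun z s => ?_⟩
  · exact mul_nonneg (mul_nonneg (Real.exp_pos _).le hσ.le) (hGr0 z)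
  · have h1 : ∑ z, (Real.exp 1 * σ * Gr z) ^ 2 = Real.exp 1 ^ 2 * σ ^ 2 * ∑ z, Gr z ^ 2 := by
      rw [Finset.mul_sum]
      exact Finset.sum_congr rfl fun z _ => by ring
    rw [h1]
    exact mul_le_mul_of_nonneg_left (hG _ Gr x hu hGr0 hGr) (by positivity)
  · set V' : T d L → ℝ := fun y => σ * Function.update ξ z s y with hV'
    have h1 : AE.IsSol 1 (1 / 8) κ (clamp V) E (W (bk 1 κ) 1 E V) := W_sol hp E hE V
    have h2 : AE.IsSol 1 (1 / 8) κ (clamp V') E (W (bk 1 κ) 1 E V') := W_sol hp E hE V'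
    have hGr' : ∀ y, LapW (fun y => Real.exp (W (bk 1 κ) 1 E V y)) Gr y +
        κ * Real.exp (-(4 * (1 / 8))) * Gr y = if y = x then 1 else 0 := by
      intro y
      rw [← hGr y]
      norm_num
    have hc := AE.Sensg.claim 1 (1 / 8) κ E one_pos (by norm_num) le_rfl hκ hE (clamp V) _
      (clamp V') _ (good_clamp_le V) (good_clamp_le _) h1 h2 z x
      (fun y hy => by
        have : V' y = V y := by
          simp only [hV', hV]
          rw [Function.update_of_ne hy]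
        unfold AE.Good.clamp
        rw [this]) Gr hGr' hGr0
    have hl := good_clamp_lip V' V z
    have he : |V' z - V z| = σ * |s - ξ z| := by
      simp only [hV', hV]
      rw [Function.update_self, ← mul_sub, abs_mul, abs_of_pos hσ]
    rw [he] at hl
    calc |W (bk 1 κ) 1 E V' x - W (bk 1 κ) 1 E V x|
        ≤ Real.exp 1 * 1 * |clamp V' z - clamp V z| * Gr z := hc
      _ ≤ Real.exp 1 * 1 * (σ * |s - ξ z|) * Gr z := by
          refine mul_le_mul_of_nonneg_right (mul_le_mul_of_nonneg_left hl ?_) (hGr0 z)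
          positivity
      _ = |s - ξ z| * (Real.exp 1 * σ * Gr z) := by ring

theorem e_bound : Real.exp 1 ^ 2 ≤ 7.5 := by
  have h1 := Real.exp_one_lt_d9
  have h2 := Real.exp_pos 1
  nlinarith

theorem anti (κ : ℝ) (hκ : 0 < κ) (E : ℝ) (hE : |E| ≤ 1) (V V' : T d L → ℝ)
    (h : ∀ y, V y ≤ V' y) (x : T d L) : W (bk 1 κ) 1 E V' x ≤ W (bk 1 κ) 1 E V x := by
  refine W_anti (pen 1 κ one_pos hκ) E hE V V' (fun y => ?_) x
  unfold AE.Good.clamp
  exact max_le_max le_rfl (min_le_min le_rfl (h y))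

theorem contF (κ : ℝ) (hκ : 0 < κ) (σ E : ℝ) (hE : |E| ≤ 1) (x : T d L) :
    Continuous fun ξ : T d L → ℝ => W (bk 1 κ) 1 E (fun y => σ * ξ y) x :=
  (W_cont (pen 1 κ one_pos hκ) E hE x).comp
    (continuous_pi fun y => continuous_const.mul (continuous_apply y))

theorem int_map (κ : ℝ) (hκ : 0 < κ) (σ E : ℝ) (hE : |E| ≤ 1) (x : T d L) (φ : ℝ → ℝ)
    (hφ : Continuous φ) :
    ∫ V, φ (W (bk 1 κ) 1 E V x) ∂(Measure.pi fun _ : T d L => gs σ) =
      ∫ ξ, φ (W (bk 1 κ) 1 E (fun y => σ * ξ y) x)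
        ∂(Measure.pi fun _ : T d L => gaussianReal 0 1) := by
  rw [← gs_law σ]
  have hm : Measurable fun (ξ : T d L → ℝ) (y : T d L) => σ * ξ y := by fun_prop
  rw [integral_map hm.aemeasurable]
  exact (hφ.comp (W_cont (pen 1 κ one_pos hκ) E hE x)).measurable.aestronglyMeasurable

/-- exponential moments -/
theorem mgf (κ : ℝ) (hκ : 0 < κ) (R : ℝ) (hR : 0 ≤ R)
    (hG : GH d L (κ * Real.exp (-(2 * (1 / 4)))) R) (σ : ℝ) (hσ : 0 < σ)
    (E : ℝ) (hE : |E| ≤ 1) (x : T d L)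
    (hmean : ∫ V, W (bk 1 κ) 1 E V x ∂(Measure.pi fun _ : T d L => gs σ) = 0) (θ : ℝ) :
    ∫ V, Real.exp (θ * W (bk 1 κ) 1 E V x) ∂(Measure.pi fun _ : T d L => gs σ) ≤
      Real.exp (36 * σ ^ 2 * R * θ ^ 2) := by
  have hp := pen 1 κ one_pos hκ
  have hm0 := int_map (d := d) (L := L) κ hκ σ E hE x id continuous_id
  simp only [id] at hm0
  rw [hm0] at hmean
  rw [int_map (d := d) (L := L) κ hκ σ E hE x (fun t => Real.exp (θ * t)) (by fun_prop)]
  have hcont := contF (d := d) (L := L) κ hκ σ E hE x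
  have hsens := sens κ hκ R hG σ hσ E hE x
  have hKsq : Real.sqrt (Real.exp 1 ^ 2 * σ ^ 2 * R) ^ 2 = Real.exp 1 ^ 2 * σ ^ 2 * R :=
    Real.sq_sqrt (by positivity)
  have hconst : ∀ θ : ℝ, 4 * Real.sqrt (Real.exp 1 ^ 2 * σ ^ 2 * R) ^ 2 * θ ^ 2 ≤
      36 * σ ^ 2 * R * θ ^ 2 := by
    intro θ
    rw [hKsq]
    have h3 : 0 ≤ σ ^ 2 * R * θ ^ 2 := by positivity
    have h4 := mul_le_mul_of_nonneg_right e_bound h3
    nlinarith
  rcases lt_trichotomy θ 0 with hθ | hθ | hθ
  · have hmn : Measurable fun (ξ : T d L → ℝ) (y : T d L) => -ξ y := by fun_prop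
    have hcn : Continuous fun ξ : T d L → ℝ => -W (bk 1 κ) 1 E (fun y => σ * (-ξ y)) x :=
      (hcont.comp (continuous_pi fun y => (continuous_apply y).neg)).neg
    have hg := AE.Gmgf.gmgf (fun ξ : T d L → ℝ => -W (bk 1 κ) 1 E (fun y => σ * (-ξ y)) x) hcn
      (1 / 4) (fun ξ => by rw [abs_neg]; exact W_bound hp E hE _ x) (by
        intro ω z s hs
        refine neg_le_neg (anti κ hκ E hE _ _ (fun y => ?_) x)
        refine mul_le_mul_of_nonneg_left ?_ hσ.le
        by_cases hy : y = z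
        · subst hy; rw [Function.update_self]; exact neg_le_neg hs
        · rw [Function.update_of_ne hy]) (Real.sqrt (Real.exp 1 ^ 2 * σ ^ 2 * R))
      (Real.sqrt_nonneg _) (by
        intro ω
        rw [hKsq]
        obtain ⟨g, hg0, hg1, hg2⟩ := hsens fun y => -ω y
        refine ⟨g, hg0, hg1, fun z s => ?_⟩
        have h := hg2 z (-s)
        have e2 : (fun y => σ * Function.update (fun y => -ω y) z (-s) y) =
            fun y => σ * (-Function.update ω z s y) := by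
          funext y
          by_cases hy : y = z
          · subst hy; rw [Function.update_self, Function.update_self]
          · rw [Function.update_of_ne hy, Function.update_of_ne hy]
        rw [e2] at h
        have e3 : |-s - -ω z| = |s - ω z| := by
          rw [← abs_neg]; congr 1; ring
        rw [e3] at h
        refine le_trans (le_of_eq ?_) h
        rw [← abs_neg]
        congr 1
        ring) (-θ) (by linarith)
    have e4 : ∀ φ : ℝ → ℝ, Continuous φ → ∫ ξ, φ (W (bk 1 κ) 1 E (fun y => σ * (-ξ y)) x)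
        ∂(Measure.pi fun _ : T d L => gaussianReal 0 1) =
        ∫ ξ, φ (W (bk 1 κ) 1 E (fun y => σ * ξ y) x)
        ∂(Measure.pi fun _ : T d L => gaussianReal 0 1) := by
      intro φ hφ
      conv_rhs => rw [← AE.Goodg.goodg_neg (d := d) (L := L)]
      have hmm : AEStronglyMeasurable (fun ξ : T d L → ℝ => φ (W (bk 1 κ) 1 E (fun y => σ * ξ y) x))
          (Measure.map (fun (ξ : T d L → ℝ) (y : T d L) => -ξ y)
            (Measure.pi fun _ : T d L => gaussianReal 0 1)) :=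
        (hφ.comp hcont).measurable.aestronglyMeasurable
      rw [integral_map hmn.aemeasurable hmm]
    have e40 := e4 id continuous_id
    simp only [id] at e40
    rw [integral_neg, e40, hmean] at hg
    simp only [neg_mul_neg] at hg
    rw [mul_zero, zero_add] at hg
    have e5 := e4 (fun t => Real.exp (θ * t)) (by fun_prop)
    beta_reduce at e5
    rw [e5] at hg
    refine hg.trans (Real.exp_le_exp.2 ?_)
    have := hconst (-θ)
    rw [neg_sq] at this
    rw [neg_sq]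
    exact this
  · subst hθ
    simp
  · have hg := AE.Gmgf.gmgf (fun ξ : T d L → ℝ => W (bk 1 κ) 1 E (fun y => σ * ξ y) x) hcont
      (1 / 4) (fun ξ => W_bound hp E hE _ x) (by
        intro ω z s hs
        refine anti κ hκ E hE _ _ (fun y => ?_) x
        refine mul_le_mul_of_nonneg_left ?_ hσ.le
        by_cases hy : y = z
        · subst hy; rw [Function.update_self]; exact hs
        · rw [Function.update_of_ne hy]) (Real.sqrt (Real.exp 1 ^ 2 * σ ^ 2 * R))
      (Real.sqrt_nonneg _) (by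
        intro ω
        rw [hKsq]
        exact hsens ω) θ hθ
    rw [hmean, mul_zero, zero_add] at hg
    exact hg.trans (Real.exp_le_exp.2 (hconst θ))

/-- Gaussian tail -/
theorem tail (κ : ℝ) (hκ : 0 < κ) (R : ℝ) (hR : 0 < R)
    (hG : GH d L (κ * Real.exp (-(2 * (1 / 4)))) R) (σ : ℝ) (hσ : 0 < σ)
    (E : ℝ) (hE : |E| ≤ 1) (x : T d L)
    (hmean : ∫ V, W (bk 1 κ) 1 E V x ∂(Measure.pi fun _ : T d L => gs σ) = 0) (δ : ℝ)
    (hδ : 0 < δ) :
    (Measure.pi fun _ : T d L => gs σ).real {V | δ ≤ |W (bk 1 κ) 1 E V x|} ≤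
      2 * Real.exp (-(δ ^ 2 / (144 * σ ^ 2 * R))) := by
  have hp := pen 1 κ one_pos hκ
  set μ : Measure ℝ := gs σ with hμ
  set θ : ℝ := δ / (72 * σ ^ 2 * R) with hθ
  have hθ0 : 0 < θ := by positivity
  have hmeas := (W_cont (d := d) (L := L) hp E hE x).measurable
  have key : ∀ s : ℝ, (s = 1 ∨ s = -1) → (Measure.pi fun _ : T d L => μ).real
      {V | δ ≤ s * W (bk 1 κ) 1 E V x} ≤ Real.exp (-(δ ^ 2 / (144 * σ ^ 2 * R))) := by
    intro s hs
    have hs2 : s ^ 2 = 1 := by rcases hs with h | h <;> rw [h] <;> norm_num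
    have hm := mgf κ hκ R hR.le hG σ hσ E hE x hmean (θ * s)
    have hint : Integrable (fun V : T d L → ℝ => Real.exp (θ * s * W (bk 1 κ) 1 E V x))
        (Measure.pi fun _ : T d L => μ) := by
      refine Integrable.of_bound (C := Real.exp (|θ * s| * (1 / 4)))
        (by fun_prop : Measurable fun V : T d L → ℝ =>
          Real.exp (θ * s * W (bk 1 κ) 1 E V x)).aestronglyMeasurable ?_
      filter_upwards with V
      rw [Real.norm_eq_abs, abs_of_pos (Real.exp_pos _)]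
      refine Real.exp_le_exp.2 ?_
      calc θ * s * W (bk 1 κ) 1 E V x ≤ |θ * s * W (bk 1 κ) 1 E V x| := le_abs_self _
        _ = |θ * s| * |W (bk 1 κ) 1 E V x| := abs_mul _ _
        _ ≤ _ := mul_le_mul_of_nonneg_left (W_bound hp E hE V x) (abs_nonneg _)
    have hmk := mul_meas_ge_le_integral_of_nonneg (μ := Measure.pi fun _ : T d L => μ)
      (f := fun V : T d L → ℝ => Real.exp (θ * s * W (bk 1 κ) 1 E V x))
      (Filter.Eventually.of_forall fun ω => (Real.exp_pos _).le) hint (Real.exp (θ * δ))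
    have hset : {V : T d L → ℝ | Real.exp (θ * δ) ≤ Real.exp (θ * s * W (bk 1 κ) 1 E V x)} =
        {V | δ ≤ s * W (bk 1 κ) 1 E V x} := by
      ext ω
      simp only [Set.mem_ofPred_eq, Real.exp_le_exp, mul_assoc]
      exact ⟨fun h => le_of_mul_le_mul_left h hθ0, fun h => mul_le_mul_of_nonneg_left h hθ0.le⟩
    rw [hset] at hmk
    have h2 := hmk.trans hm
    have h3 : (Measure.pi fun _ : T d L => μ).real {V | δ ≤ s * W (bk 1 κ) 1 E V x} =
        Real.exp (-(θ * δ)) * (Real.exp (θ * δ) *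
        (Measure.pi fun _ : T d L => μ).real {V | δ ≤ s * W (bk 1 κ) 1 E V x}) := by
      rw [← mul_assoc, ← Real.exp_add]; simp
    rw [h3]
    refine (mul_le_mul_of_nonneg_left h2 (Real.exp_pos _).le).trans (le_of_eq ?_)
    rw [← Real.exp_add, mul_pow, hs2, hθ]
    congr 1
    field_simp
    ring
  have hsub : {V : T d L → ℝ | δ ≤ |W (bk 1 κ) 1 E V x|} ⊆
      {V | δ ≤ 1 * W (bk 1 κ) 1 E V x} ∪ {V | δ ≤ -1 * W (bk 1 κ) 1 E V x} := by
    intro V hV
    rcases le_abs.1 (show δ ≤ |W (bk 1 κ) 1 E V x| from hV) with h | h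
    · exact Or.inl (by rw [Set.mem_ofPred_eq, one_mul]; exact h)
    · exact Or.inr (by rw [Set.mem_ofPred_eq, neg_one_mul]; exact h)
  refine (measureReal_mono hsub).trans ((measureReal_union_le _ _).trans ?_)
  have h1 := key 1 (Or.inl rfl)
  have h2 := key (-1) (Or.inr rfl)
  linarith

/-- crude union bound -/
theorem union (κ : ℝ) (hκ : 0 < κ) (R : ℝ) (hR : 0 < R)
    (hG : GH d L (κ * Real.exp (-(2 * (1 / 4)))) R) (σ : ℝ) (hσ : 0 < σ)
    (E : ℝ) (hE : |E| ≤ 1)
    (hmean : ∀ x, ∫ V, W (bk 1 κ) 1 E V x ∂(Measure.pi fun _ : T d L => gs σ) = 0) (a : ℝ)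
    (ha : 0 < a) :
    (Measure.pi fun _ : T d L => gs σ).real (Bad (bk 1 κ) 1 E a) ≤
      (L : ℝ) ^ d * (2 * Real.exp (-(a ^ 2 / (144 * σ ^ 2 * R)))) := by
  have hc : Bad (d := d) (L := L) (bk 1 κ) 1 E a =
      ⋃ x, {V : T d L → ℝ | a ≤ |W (bk 1 κ) 1 E V x|} := by
    ext V; simp [Bad]
  rw [hc]
  refine (measureReal_iUnion_fintype_le _).trans ?_
  refine (Finset.sum_le_sum fun x _ => tail κ hκ R hR hG σ hσ E hE x (hmean x) a ha).trans ?_
  rw [Finset.sum_const, nsmul_eq_mul, Finset.card_univ, AE.Sens.card_T]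

/-- Markov's inequality for the sum of exponentials -/
theorem markov (κ : ℝ) (hκ : 0 < κ) (R : ℝ) (hR : 0 ≤ R)
    (hG : GH d L (κ * Real.exp (-(2 * (1 / 4)))) R) (σ : ℝ) (hσ : 0 < σ)
    (E : ℝ) (hE : |E| ≤ 1)
    (hmean : ∀ x, ∫ V, W (bk 1 κ) 1 E V x ∂(Measure.pi fun _ : T d L => gs σ) = 0) (p a : ℝ)
    (hp0 : 0 ≤ p) (ha : 0 ≤ a) (s : ℝ) (hs : s = 1 ∨ s = -1) (t : ℝ) (ht : 0 < t) :
    (Measure.pi fun _ : T d L => gs σ).real {V | t ≤ ∑ x : T d L,
      (1 + Real.exp (2 * p * a) * Real.exp (2 * p * s * W (bk 1 κ) 1 E V x))} ≤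
      2 * (L : ℝ) ^ d * Real.exp (2 * p * a + 144 * σ ^ 2 * R * p ^ 2) / t := by
  have hp := pen 1 κ one_pos hκ
  set P := Measure.pi fun _ : T d L => gs σ with hP
  have hs2 : s ^ 2 = 1 := by rcases hs with h | h <;> rw [h] <;> norm_num
  have hint : ∀ x, Integrable (fun V : T d L → ℝ => Real.exp (2 * p * s * W (bk 1 κ) 1 E V x)) P := by
    intro x
    have hmeas := (W_cont (d := d) (L := L) hp E hE x).measurable
    refine Integrable.of_bound (C := Real.exp (|2 * p * s| * (1 / 4)))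
      (by fun_prop : Measurable fun V : T d L → ℝ =>
        Real.exp (2 * p * s * W (bk 1 κ) 1 E V x)).aestronglyMeasurable ?_
    filter_upwards with V
    rw [Real.norm_eq_abs, abs_of_pos (Real.exp_pos _)]
    refine Real.exp_le_exp.2 ?_
    calc 2 * p * s * W (bk 1 κ) 1 E V x ≤ |2 * p * s * W (bk 1 κ) 1 E V x| := le_abs_self _
      _ = |2 * p * s| * |W (bk 1 κ) 1 E V x| := abs_mul _ _
      _ ≤ _ := mul_le_mul_of_nonneg_left (W_bound hp E hE V x) (abs_nonneg _)
  have hint2 : ∀ x ∈ Finset.univ, Integrable (fun V : T d L → ℝ =>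
      1 + Real.exp (2 * p * a) * Real.exp (2 * p * s * W (bk 1 κ) 1 E V x)) P :=
    fun x _ => (integrable_const _).add ((hint x).const_mul _)
  have hE1 : ∫ V, ∑ x : T d L, (1 + Real.exp (2 * p * a) *
      Real.exp (2 * p * s * W (bk 1 κ) 1 E V x)) ∂P ≤
      2 * (L : ℝ) ^ d * Real.exp (2 * p * a + 144 * σ ^ 2 * R * p ^ 2) := by
    rw [integral_finsetSum _ hint2]
    calc _ ≤ ∑ _x : T d L, 2 * Real.exp (2 * p * a + 144 * σ ^ 2 * R * p ^ 2) := by
          refine Finset.sum_le_sum fun x _ => ?_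
          rw [integral_add (integrable_const _) ((hint x).const_mul _), integral_const_mul,
            integral_const]
          have h1 := mgf κ hκ R hR hG σ hσ E hE x (hmean x) (2 * p * s)
          have h2 : Real.exp (36 * σ ^ 2 * R * (2 * p * s) ^ 2) =
              Real.exp (144 * σ ^ 2 * R * p ^ 2) := by
            congr 1
            rw [mul_pow, hs2]
            ring
          rw [h2] at h1
          have h3 : 1 ≤ Real.exp (2 * p * a + 144 * σ ^ 2 * R * p ^ 2) :=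
            Real.one_le_exp (by positivity)
          have h4 := mul_le_mul_of_nonneg_left h1 (Real.exp_pos (2 * p * a)).le
          rw [← Real.exp_add] at h4
          simp only [probReal_univ, smul_eq_mul, mul_one]
          linarith
      _ = _ := by
          rw [Finset.sum_const, nsmul_eq_mul, Finset.card_univ, AE.Sens.card_T]
          ring
  have hmk := mul_meas_ge_le_integral_of_nonneg (μ := P)
    (f := fun V : T d L → ℝ => ∑ x : T d L,
      (1 + Real.exp (2 * p * a) * Real.exp (2 * p * s * W (bk 1 κ) 1 E V x)))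
    (Filter.Eventually.of_forall fun V => Finset.sum_nonneg fun x _ => by positivity)
    (integrable_finsetSum _ hint2) t
  rw [le_div_iff₀ ht, mul_comm]
  exact hmk.trans hE1

/-- the recursion -/
theorem two (κ1 κ2 : ℝ) (hκ1 : 0 < κ1) (hκ2 : 0 < κ2) (σ : ℝ) (hσ : 0 < σ) (E1 E2 : ℝ)
    (hE1 : |E1| ≤ 1) (hE2 : |E2| ≤ 1)
    (hmean : ∀ x, ∫ V, W (bk 1 κ2) 1 E2 V x ∂(Measure.pi fun _ : T d L => gs σ) = 0)
    (a a2 b1 b2 e : ℝ)
    (ha : 0 < a) (ha4 : a ≤ 1 / 4)
    (hb1 : ∀ s, |s| ≤ a → |bk 1 κ1 s| ≤ b1) (hb2 : ∀ s, |s| ≤ a → |bk 1 κ2 s| ≤ b2)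
    (he : |E2 - E1| ≤ e)
    (k R1 R2 : ℝ) (hk : 0 < k) (hR1 : 0 < R1) (hR2 : 0 < R2) (hG1 : GH d L k R1)
    (hG2 : GH d L (κ2 * Real.exp (-(2 * (1 / 4)))) R2) (p : ℝ) (hp : 1 ≤ p) :
    (Measure.pi fun _ : T d L => gs σ).real (Bad (bk 1 κ2) 1 E2 a2) ≤
      (Measure.pi fun _ : T d L => gs σ).real (Bad (bk 1 κ1) 1 E1 a) +
      4 * (((p * (2 * (b1 + b2 + e)) + k) ^ 2 * R1) * (L : ℝ) ^ d) *
        Real.exp (-(2 * p * (a2 - 2 * a)) + 144 * σ ^ 2 * R2 * p ^ 2) := by
  have p1 := pen 1 κ1 one_pos hκ1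
  have p2 := pen 1 κ2 one_pos hκ2
  set P := Measure.pi fun _ : T d L => gs σ with hP
  set M : ℝ := (p * (2 * (b1 + b2 + e)) + k) ^ 2 * R1 with hM
  have hb10 : 0 ≤ b1 := (abs_nonneg _).trans (hb1 0 (by rw [abs_zero]; exact ha.le))
  have hb20 : 0 ≤ b2 := (abs_nonneg _).trans (hb2 0 (by rw [abs_zero]; exact ha.le))
  have he0 : 0 ≤ e := (abs_nonneg _).trans he
  have hM0 : 0 < M := by
    rw [hM]
    have : 0 < p * (2 * (b1 + b2 + e)) + k := by positivity
    positivity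
  set t : ℝ := Real.exp (2 * p * (a2 - a)) / M with ht
  have ht0 : 0 < t := by positivity
  set S : ℝ → Set (T d L → ℝ) := fun s => {V | t ≤ ∑ x : T d L,
      (1 + Real.exp (2 * p * a) * Real.exp (2 * p * s * W (bk 1 κ2) 1 E2 V x))} with hS
  have hsub : Bad (d := d) (L := L) (bk 1 κ2) 1 E2 a2 ⊆ Bad (bk 1 κ1) 1 E1 a ∪ (S 1 ∪ S (-1)) := by
    intro V hV
    by_cases hV1 : V ∈ Bad (bk 1 κ1) 1 E1 a
    · exact Or.inl hV1
    right
    obtain ⟨x0, hx0⟩ := hV
    have hw1 : ∀ x, |W (bk 1 κ1) 1 E1 V x| ≤ a := by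
      intro x
      by_contra hc
      push Not at hc
      exact hV1 ⟨x, hc.le⟩
    have hw2 : ∀ x, |W (bk 1 κ2) 1 E2 V x| ≤ 1 / 4 := fun x => (W_bound p2 E2 hE2 V x).trans p2.hr4
    have main : ∀ s : ℝ, (s = 1 ∨ s = -1) → a2 ≤ s * W (bk 1 κ2) 1 E2 V x0 → V ∈ S s := by
      intro s hs h
      have h1 := Pool.Agent.K3h4.AN.Tw.det p1 p2 (clamp V) _ _ E1 E2 (W_sol p1 E1 hE1 V)
        (W_sol p2 E2 hE2 V) a b1 b2 e
        hw1 ha4 hw2 hb1 hb2 he k R1 hk hG1 p hp s hs x0
      have hsa : ∀ x, |s * W (bk 1 κ1) 1 E1 V x| ≤ a := by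
        intro x
        rcases hs with h | h <;> rw [h]
        · rw [one_mul]; exact hw1 x
        · rw [neg_one_mul, abs_neg]; exact hw1 x
      show t ≤ _
      rw [ht, div_le_iff₀ hM0]
      have h2 : Real.exp (2 * p * (a2 - a)) ≤
          Real.exp (2 * p * (s * (W (bk 1 κ2) 1 E2 V x0 - W (bk 1 κ1) 1 E1 V x0))) := by
        refine Real.exp_le_exp.2 (mul_le_mul_of_nonneg_left ?_ (by positivity))
        have := (abs_le.1 (hsa x0)).2
        linarith
      refine h2.trans (h1.trans ?_)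
      rw [← hM, mul_comm]
      refine mul_le_mul_of_nonneg_right (Finset.sum_le_sum fun x _ => ?_) hM0.le
      rcases le_total 0 (s * (W (bk 1 κ2) 1 E2 V x - W (bk 1 κ1) 1 E1 V x)) with h3 | h3
      · rw [max_eq_left h3]
        have h4 : Real.exp (2 * p * (s * (W (bk 1 κ2) 1 E2 V x - W (bk 1 κ1) 1 E1 V x))) ≤
            Real.exp (2 * p * a) * Real.exp (2 * p * s * W (bk 1 κ2) 1 E2 V x) := by
          rw [← Real.exp_add]
          refine Real.exp_le_exp.2 ?_
          have h5 := (abs_le.1 (hsa x)).1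
          have h6 : s * (W (bk 1 κ2) 1 E2 V x - W (bk 1 κ1) 1 E1 V x) ≤
              a + s * W (bk 1 κ2) 1 E2 V x := by
            linarith
          have h7 := mul_le_mul_of_nonneg_left h6 (by positivity : 0 ≤ 2 * p)
          linarith
        linarith
      · rw [max_eq_right h3, mul_zero, Real.exp_zero]
        have h4 : 0 ≤ Real.exp (2 * p * a) * Real.exp (2 * p * s * W (bk 1 κ2) 1 E2 V x) := by
          positivity
        linarith
    rcases le_abs.1 hx0 with h | h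
    · exact Or.inl (main 1 (Or.inl rfl) (by rw [one_mul]; exact h))
    · exact Or.inr (main (-1) (Or.inr rfl) (by rw [neg_one_mul]; exact h))
  have hmk : ∀ s : ℝ, (s = 1 ∨ s = -1) → P.real (S s) ≤ 2 * (M * (L : ℝ) ^ d) *
      Real.exp (-(2 * p * (a2 - 2 * a)) + 144 * σ ^ 2 * R2 * p ^ 2) := by
    intro s hs
    refine (markov κ2 hκ2 R2 hR2.le hG2 σ hσ E2 hE2 hmean p a (by linarith) ha.le s hs t ht0).trans
      (le_of_eq ?_)
    rw [ht, div_div_eq_mul_div, div_eq_mul_inv, ← Real.exp_neg]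
    have h1 : Real.exp (-(2 * p * (a2 - 2 * a)) + 144 * σ ^ 2 * R2 * p ^ 2) =
        Real.exp (2 * p * a + 144 * σ ^ 2 * R2 * p ^ 2) * Real.exp (-(2 * p * (a2 - a))) := by
      rw [← Real.exp_add]; congr 1; ring
    rw [h1]
    ring
  refine (measureReal_mono hsub).trans ((measureReal_union_le _ _).trans ?_)
  have h1 := measureReal_union_le (μ := P) (S 1) (S (-1))
  have h2 := hmk 1 (Or.inl rfl)
  have h3 := hmk (-1) (Or.inr rfl)
  linarith

end Pool.Agent.H69.AN
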