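import Pool.Agent.H69.AN.G1

/-! Gaussian disorder: chaining over the masses. The proofs follow `Pool.Agent.K3h4.AN.Ch`. -/

set_option autoImplicit false
set_option linter.unusedSectionVars false
set_option linter.unusedVariables false

open scoped BigOperators
open MeasureTheory ProbabilityTheory Filter Topology

namespace Pool.Agent.H69.AN

open Pool.Agent.H4R2
open Pool.Agent.H4R2.AE (T LapW Hop)
open Pool.Agent.H4R2.AE.Good (clamp good_clamp_le good_clamp_eq)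
open Pool.Agent.K3h4.AN.Pe
open Pool.Agent.K3h4.AN.Pf
open Pool.Agent.K3h4.AN.Ch (bk pen bk_lin bk_abs RH yy nn)
open Pool.Agent.K3h4.AN.Tp (Bad meas_Bad en)

variable {d L : ℕ} [NeZero L]

theorem stepG {κm Q P : ℝ} {R : ℝ → ℝ} (h : RH d L κm Q P R)
    (σ : ℝ) (hσ : 0 < σ) (κ a E1 E2 : ℝ)
    (hκ : κm ≤ κ) (ha : 0 < a) (ha8 : a ≤ 1 / 8) (hE1 : |E1| ≤ 1) (hE2 : |E2| ≤ 1)
    (hmean : ∀ x, ∫ V, W (bk 1 κ) 1 E2 V x ∂(Measure.pi fun _ : T d L => gs σ) = 0)
    (hy : 1 ≤ yy R σ κ a)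
    (hε : (Measure.pi fun _ : T d L => gs σ).real (Bad (bk 1 (Q * κ)) 1 E1 (a / 64)) ≤ a / 16) :
    (Measure.pi fun _ : T d L => gs σ).real (Bad (bk 1 κ) 1 E2 a) ≤
      (Measure.pi fun _ : T d L => gs σ).real (Bad (bk 1 (Q * κ)) 1 E1 (a / 64)) +
        nn d L R Q κ * Real.exp (-(yy R σ κ a)) := by
  have hκm := h.m0
  have hκ0 : 0 < κ := lt_of_lt_of_le hκm hκ
  have hQ5 := h.Q5
  have hQ0 : 0 < Q := by linarith
  set κ1 : ℝ := Q * κ with hκ1
  have hκ10 : 0 < κ1 := by positivity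
  have hκκ1 : 5 * κ ≤ κ1 := by rw [hκ1]; nlinarith
  have hκ1m : κm ≤ κ1 := by linarith
  have p1 := pen 1 κ1 one_pos hκ10
  have p2 := pen 1 κ one_pos hκ0
  have hR1 := h.pos κ1 hκ1m
  have hR2 := h.pos κ hκ
  set a1 : ℝ := a / 64 with ha1
  have ha10 : 0 < a1 := by positivity
  have ha18 : a1 ≤ 1 / 512 := by rw [ha1]; linarith
  -- energies
  have hen : |E2 - E1| ≤ κ1 * a1 + κ * (4 * a1) := by
    refine en p1 p2 (gs σ) E1 E2 hE1 hE2 (hmean 0) a1 (4 * a1) (κ1 * a1) (κ * (4 * a1)) (by linarith)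
      (fun s hs => bk_abs 1 κ1 s a1 hκ10.le (by linarith) hs) ?_ ?_ ?_
    · rw [bk_lin 1 κ (4 * a1) (by rw [abs_of_pos (by positivity)]; linarith)]
    · rw [bk_lin 1 κ (-(4 * a1)) (by rw [abs_neg, abs_of_pos (by positivity)]; linarith)]
      linarith
    · have h4 : a / 16 = 4 * a1 := by rw [ha1]; ring
      rw [h4] at hε
      have h5 : 0 ≤ (1 / 4 + (4 * a1 - 2 * a1)) := by linarith
      calc _ ≤ 4 * a1 * (1 / 4 + (4 * a1 - 2 * a1)) := mul_le_mul_of_nonneg_right hε h5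
        _ < 4 * a1 - 2 * a1 := by nlinarith
  set p : ℝ := a / (288 * σ ^ 2 * R κ) with hp
  have hyp : p * a = 4 / 3 * yy R σ κ a := by
    rw [hp]
    unfold yy
    field_simp
    norm_num
  have hp1 : 1 ≤ p := by
    have h3 : 1 ≤ p * a := by rw [hyp]; linarith
    have hp0 : 0 < p := by positivity
    nlinarith
  have h2 := two κ1 κ hκ10 hκ0 σ hσ E1 E2 hE1 hE2 hmean a1 a (κ1 * a1) (κ * a1) (κ1 * a1 + κ * (4 * a1)) ha10
    (by linarith) (fun s hs => bk_abs 1 κ1 s a1 hκ10.le (by linarith) hs)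
    (fun s hs => bk_abs 1 κ s a1 hκ0.le (by linarith) hs) hen κ1 (R κ1) (R κ) hκ10 hR1 hR2
    (h.g1 κ1 hκ1m) (h.g2 κ hκ) p hp1
  refine h2.trans ?_
  have h3 : p * (2 * (κ1 * a1 + κ * a1 + (κ1 * a1 + κ * (4 * a1)))) + κ1 ≤
      κ1 * Real.exp (6 * p * a1) := by
    have h4 : κ1 * a1 + κ * a1 + (κ1 * a1 + κ * (4 * a1)) ≤ 3 * κ1 * a1 := by nlinarith
    have h5 : p * (2 * (κ1 * a1 + κ * a1 + (κ1 * a1 + κ * (4 * a1)))) ≤ p * (2 * (3 * κ1 * a1)) := by
      gcongr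
    have h6 := Real.add_one_le_exp (6 * p * a1)
    have h7 := mul_le_mul_of_nonneg_left h6 hκ10.le
    linarith
  have h4 : 0 ≤ p * (2 * (κ1 * a1 + κ * a1 + (κ1 * a1 + κ * (4 * a1)))) + κ1 := by positivity
  have h5 : (p * (2 * (κ1 * a1 + κ * a1 + (κ1 * a1 + κ * (4 * a1)))) + κ1) ^ 2 ≤
      κ1 ^ 2 * Real.exp (12 * p * a1) := by
    refine (pow_le_pow_left₀ h4 h3 2).trans (le_of_eq ?_)
    rw [mul_pow, ← Real.exp_nat_mul]
    congr 2
    push_cast
    ring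
  have h6 : 4 * (((p * (2 * (κ1 * a1 + κ * a1 + (κ1 * a1 + κ * (4 * a1)))) + κ1) ^ 2 * R κ1) *
      (L : ℝ) ^ d) * Real.exp (-(2 * p * (a - 2 * a1)) + 144 * σ ^ 2 * R κ * p ^ 2) ≤
      nn d L R Q κ * Real.exp (-(yy R σ κ a)) := by
    calc _ ≤ 4 * (((κ1 ^ 2 * Real.exp (12 * p * a1)) * R κ1) * (L : ℝ) ^ d) *
          Real.exp (-(2 * p * (a - 2 * a1)) + 144 * σ ^ 2 * R κ * p ^ 2) := by
          gcongr
      _ = 4 * (κ1 ^ 2 * R κ1) * (L : ℝ) ^ d * (Real.exp (12 * p * a1) *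
          Real.exp (-(2 * p * (a - 2 * a1)) + 144 * σ ^ 2 * R κ * p ^ 2)) := by ring
      _ = nn d L R Q κ * Real.exp (12 * p * a1 +
          (-(2 * p * (a - 2 * a1)) + 144 * σ ^ 2 * R κ * p ^ 2)) := by
          rw [← Real.exp_add]
          rfl
      _ ≤ _ := by
          have hn : 0 ≤ nn d L R Q κ := by
            unfold nn
            rw [← hκ1]
            positivity
          refine mul_le_mul_of_nonneg_left (Real.exp_le_exp.2 ?_) hn
          have h7 : 144 * σ ^ 2 * R κ * p ^ 2 = 1 / 2 * (p * a) := by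
            rw [hp]
            field_simp
            norm_num
          rw [h7, ha1]
          have h8 : 12 * p * (a / 64) + (-(2 * p * (a - 2 * (a / 64))) + 1 / 2 * (p * a)) =
              -(5 / 4) * (p * a) := by ring
          rw [h8, hyp]
          linarith
  linarith

theorem chain_auxG {κm Q P : ℝ} {R : ℝ → ℝ} (h : RH d L κm Q P R)
    (σ : ℝ) (hσ : 0 < σ) (y0 : ℝ) (hy0 : 1 ≤ y0)
    (hP : P * Real.exp (-(3 * y0)) ≤ 1 / 64) (m : ℕ) : ∀ (κ a E : ℝ),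
    κm ≤ κ → 0 < a → a ≤ 1 / 8 → |E| ≤ 1 →
    (∀ x, ∫ V, W (bk 1 κ) 1 E V x ∂(Measure.pi fun _ : T d L => gs σ) = 0) →
    y0 ≤ yy R σ κ a → nn d L R Q κ * Real.exp (-(yy R σ κ a)) ≤ a / 32 →
    (L : ℝ) ^ d * Real.exp (-(5 / 3 * 4 ^ m * yy R σ κ a)) ≤ nn d L R Q κ →
    (Measure.pi fun _ : T d L => gs σ).real (Bad (bk 1 κ) 1 E a) ≤
      2 * (nn d L R Q κ * Real.exp (-(yy R σ κ a))) := by
  have hκm := h.m0
  have hQ5 := h.Q5
  have hQ0 : 0 < Q := by linarith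
  induction m with
  | zero =>
    intro κ a E hκ ha ha8 hE hmean hy hn hm
    have hκ0 : 0 < κ := lt_of_lt_of_le hκm hκ
    have hR := h.pos κ hκ
    refine (union κ hκ0 (R κ) hR (h.g2 κ hκ) σ hσ E hE hmean a ha).trans ?_
    have e1 : a ^ 2 / (144 * σ ^ 2 * R κ) = 8 / 3 * yy R σ κ a := by
      unfold yy
      field_simp
      norm_num
    have e2 : Real.exp (-(8 / 3 * yy R σ κ a)) =
        Real.exp (-(5 / 3 * 4 ^ 0 * yy R σ κ a)) * Real.exp (-(yy R σ κ a)) := by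
      rw [← Real.exp_add]
      congr 1
      ring
    rw [e1, e2]
    have e3 := mul_le_mul_of_nonneg_right hm (Real.exp_pos (-(yy R σ κ a))).le
    linarith
  | succ m ih =>
    intro κ a E hκ ha ha8 hE hmean hy hn hm
    have hκ0 : 0 < κ := lt_of_lt_of_le hκm hκ
    have hκκ1 : κ ≤ Q * κ := by nlinarith
    have hκ1m : κm ≤ Q * κ := by linarith
    have hκ2m : κm ≤ Q * (Q * κ) := by nlinarith
    have hR := h.pos κ hκ
    have hR1 := h.pos (Q * κ) hκ1m
    have hR2 := h.pos (Q * (Q * κ)) hκ2m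
    have hLd : (0 : ℝ) ≤ (L : ℝ) ^ d := by positivity
    obtain ⟨E1, hE1, hmean1⟩ := W_E (d := d) (L := L) (pen 1 (Q * κ) one_pos (by positivity)) (gs σ)
    set y : ℝ := yy R σ κ a with hyd
    set y' : ℝ := yy R σ (Q * κ) (a / 64) with hyd'
    have hyy : 4 * y ≤ y' := by
      rw [hyd, hyd']
      unfold yy
      have h1 := h.dec κ hκ
      rw [div_pow, div_div, mul_div_assoc', div_le_div_iff₀ (by positivity) (by positivity)]
      have h2 : 0 < a ^ 2 * (384 * σ ^ 2) := by positivity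
      have h3 := mul_le_mul_of_nonneg_left h1 h2.le
      nlinarith
    set n : ℝ := nn d L R Q κ with hnd
    set n' : ℝ := nn d L R Q (Q * κ) with hnd'
    have hn0 : 0 ≤ n := by rw [hnd]; unfold nn; positivity
    have hn'0 : 0 ≤ n' := by rw [hnd']; unfold nn; positivity
    have hnP : n' ≤ P * n := by
      have h1 := h.nu (Q * κ) hκ1m
      have h2 := mul_le_mul_of_nonneg_right (mul_le_mul_of_nonneg_left h1 (by norm_num : (0:ℝ) ≤ 4))
        hLd
      rw [hnd, hnd']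
      unfold nn
      linarith
    have hnn : n ≤ n' := by
      have h1 := h.nl (Q * κ) hκ1m
      have h2 := mul_le_mul_of_nonneg_right (mul_le_mul_of_nonneg_left h1 (by norm_num : (0:ℝ) ≤ 4))
        hLd
      rw [hnd, hnd']
      unfold nn
      exact h2
    have hy1 : 1 ≤ y := hy0.trans hy
    have hexp : P * Real.exp (-(3 * y)) ≤ 1 / 64 := by
      rcases le_total 0 P with hP0 | hP0
      · refine le_trans (mul_le_mul_of_nonneg_left (Real.exp_le_exp.2 ?_) hP0) hP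
        linarith
      · have := mul_nonpos_of_nonpos_of_nonneg hP0 (Real.exp_pos (-(3 * y))).le
        linarith
    have hne : n' * Real.exp (-y') ≤ 1 / 64 * (n * Real.exp (-y)) := by
      calc n' * Real.exp (-y') ≤ (P * n) * Real.exp (-(3 * y) + -y) := by
            refine mul_le_mul hnP (Real.exp_le_exp.2 (by linarith)) (Real.exp_pos _).le
              (hn'0.trans hnP)
        _ = (P * Real.exp (-(3 * y))) * (n * Real.exp (-y)) := by
            rw [Real.exp_add]; ring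
        _ ≤ _ := mul_le_mul_of_nonneg_right hexp (by positivity)
    have hne0 : 0 ≤ n * Real.exp (-y) := by positivity
    have ih1 := ih (Q * κ) (a / 64) E1 hκ1m (by positivity) (by linarith) hE1 hmean1
      (by rw [← hyd']; linarith) (by rw [← hyd', ← hnd']; linarith) (by
        rw [← hyd', ← hnd']
        refine le_trans (mul_le_mul_of_nonneg_left (Real.exp_le_exp.2 ?_) hLd) (hm.trans hnn)
        have h4 : (0 : ℝ) ≤ 5 / 3 * 4 ^ m := by positivity
        have h5 := mul_le_mul_of_nonneg_left hyy h4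
        rw [pow_succ]
        linarith)
    rw [← hyd', ← hnd'] at ih1
    have hs := stepG h σ hσ κ a E1 E hκ ha ha8 hE1 hE hmean hy1 (by linarith)
    rw [← hyd, ← hnd] at hs
    linarith

/-- chaining -/
theorem chainG {κm Q P : ℝ} {R : ℝ → ℝ} (h : RH d L κm Q P R)
    (σ : ℝ) (hσ : 0 < σ) (y0 : ℝ) (hy0 : 1 ≤ y0)
    (hP : P * Real.exp (-(3 * y0)) ≤ 1 / 64) (κ a E : ℝ)
    (hκ : κm ≤ κ) (ha : 0 < a) (ha8 : a ≤ 1 / 8) (hE : |E| ≤ 1)
    (hmean : ∀ x, ∫ V, W (bk 1 κ) 1 E V x ∂(Measure.pi fun _ : T d L => gs σ) = 0)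
    (hy : y0 ≤ yy R σ κ a) (hn : nn d L R Q κ * Real.exp (-(yy R σ κ a)) ≤ a / 32) :
    (Measure.pi fun _ : T d L => gs σ).real (Bad (bk 1 κ) 1 E a) ≤
      2 * (nn d L R Q κ * Real.exp (-(yy R σ κ a))) := by
  have hκm := h.m0
  have hQ5 := h.Q5
  have hκ0 : 0 < κ := lt_of_lt_of_le hκm hκ
  have hQκ : κm ≤ Q * κ := by nlinarith
  have hR1 := h.pos (Q * κ) hQκ
  have hL := AE.Core.L_pos (L := L)
  have hn0 : 0 < nn d L R Q κ := by
    unfold nn
    have : 0 < Q * κ := by positivity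
    positivity
  obtain ⟨m, hm⟩ : ∃ m : ℕ, (L : ℝ) ^ d * Real.exp (-(5 / 3 * 4 ^ m * yy R σ κ a)) ≤
      nn d L R Q κ := by
    have h1 : Tendsto (fun m : ℕ => (L : ℝ) ^ d * Real.exp (-(5 / 3 * 4 ^ m * yy R σ κ a)))
        atTop (𝓝 ((L : ℝ) ^ d * 0)) := by
      refine Tendsto.const_mul _ (Real.tendsto_exp_neg_atTop_nhds_zero.comp ?_)
      refine Tendsto.atTop_mul_const (by linarith) ?_
      exact (tendsto_pow_atTop_atTop_of_one_lt (by norm_num)).const_mul_atTop (by norm_num)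
    rw [mul_zero] at h1
    exact (h1.eventually (ge_mem_nhds hn0)).exists
  exact chain_auxG h σ hσ y0 hy0 hP m κ a E hκ ha ha8 hE hmean hy hn hm



end Pool.Agent.H69.AN
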