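import Pool.Agent.H69.AN.G2
import Pool.Graph.R_pool_sql_team_seeded_5cf16337.K3h4.AN.F3

/-! Dimension three, Gaussian disorder: flat ground states on tori of side up to the mean free path
and localization at distance `σ⁴ (log log (1/σ))²`. -/

set_option autoImplicit false
set_option linter.unusedSectionVars false
set_option linter.unusedVariables false

open scoped BigOperators
open MeasureTheory ProbabilityTheory Filter Topology

namespace Pool.Agent.H69.AN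

open Pool.Agent.H4R2
open Pool.Agent.H4R2.AE (T LapW Hop)
open Pool.Agent.H4R2.AE.Good (clamp good_clamp_le good_clamp_eq)
open Pool.Agent.K3h4.AN.Pe
open Pool.Agent.K3h4.AN.Pf
open Pool.Agent.K3h4.AN.Ch (bk pen bk_lin bk_abs RH yy nn)
open Pool.Agent.K3h4.AN.Tp (Bad meas_Bad en)
open Pool.Agent.K3h4.AN.F3 (rh3 nn3 rate)
open Pool.Agent.Y663
open Pool.Agent.H4R2.LO (Zd)

/-- the good event -/
theorem goodG {d L : ℕ} [NeZero L] {κm Q P : ℝ} {R : ℝ → ℝ} (h : RH d L κm Q P R)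
    (σ : ℝ) (hσ : 0 < σ) (y0 : ℝ) (hy0 : 1 ≤ y0)
    (hP : P * Real.exp (-(3 * y0)) ≤ 1 / 64) (κ a : ℝ)
    (hκ : κm ≤ κ) (ha : 0 < a) (ha8 : a ≤ 1 / 8)
    (hy : y0 ≤ yy R σ κ a) (hn : nn d L R Q κ * Real.exp (-(yy R σ κ a)) ≤ a / 32) :
    ∃ E : ℝ, |E| ≤ 1 ∧ ∃ G : Set (T d L → ℝ), MeasurableSet G ∧
      1 - (2 * (nn d L R Q κ * Real.exp (-(yy R σ κ a))) +
        (L : ℝ) ^ d * (2 * Real.exp (-(1 / (2 * σ ^ 2))))) ≤
        (Measure.pi fun _ : T d L => gaussianReal 0 1).real G ∧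
      ∀ ξ ∈ G, ∃ w : T d L → ℝ, (∀ x, |w x| ≤ a) ∧
        ∀ x, ∑ i : Fin d, ((1 - Real.exp (w (x + Pi.single i 1) - w x)) +
          (1 - Real.exp (w (x - Pi.single i 1) - w x))) + σ * ξ x - E + κ * w x = 0 := by
  have hκ0 : 0 < κ := lt_of_lt_of_le h.m0 hκ
  obtain ⟨E, hE, hmean⟩ := W_E (d := d) (L := L) (pen 1 κ one_pos hκ0) (gs σ)
  have hc := chainG h σ hσ y0 hy0 hP κ a E hκ ha ha8 hE hmean hy hn
  have hmB := meas_Bad (d := d) (L := L) (pen 1 κ one_pos hκ0) E hE a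
  have hm : Measurable fun (ξ : T d L → ℝ) (y : T d L) => σ * ξ y := by fun_prop
  set B1 : Set (T d L → ℝ) := {ξ | (fun y => σ * ξ y) ∈ Bad (bk 1 κ) 1 E a} with hB1
  have hB1m : MeasurableSet B1 := hm hmB
  have hB1P : (Measure.pi fun _ : T d L => gaussianReal 0 1).real B1 ≤
      2 * (nn d L R Q κ * Real.exp (-(yy R σ κ a))) := by
    rw [← gs_law σ, map_measureReal_apply hm hmB] at hc
    exact hc
  set B2 : Set (T d L → ℝ) := ⋃ x, {ξ : T d L → ℝ | 1 < |σ * ξ x|} with hB2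
  have hB2m : MeasurableSet B2 :=
    MeasurableSet.iUnion fun x => measurableSet_lt measurable_const (by fun_prop)
  have hB2P : (Measure.pi fun _ : T d L => gaussianReal 0 1).real B2 ≤
      (L : ℝ) ^ d * (2 * Real.exp (-(1 / (2 * σ ^ 2)))) := by
    refine (measureReal_iUnion_fintype_le _).trans ?_
    refine (Finset.sum_le_sum fun x _ => AE.Goodg.goodg_gauss σ hσ x).trans ?_
    rw [Finset.sum_const, nsmul_eq_mul, Finset.card_univ, AE.Sens.card_T]
  refine ⟨E, hE, (B1 ∪ B2)ᶜ, (hB1m.union hB2m).compl, ?_, fun ξ hξ => ?_⟩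
  · have h2 := probReal_add_probReal_compl (μ := Measure.pi fun _ : T d L => gaussianReal 0 1)
      (hB1m.union hB2m)
    have h3 := measureReal_union_le (μ := Measure.pi fun _ : T d L => gaussianReal 0 1) B1 B2
    linarith
  · rw [Set.compl_union] at hξ
    obtain ⟨h1, h2⟩ := hξ
    have hV : ∀ x, |σ * ξ x| ≤ 1 := by
      intro x
      by_contra hcon
      push Not at hcon
      exact h2 (Set.mem_iUnion.2 ⟨x, hcon⟩)
    have hw : ∀ x, |W (bk 1 κ) 1 E (fun y => σ * ξ y) x| ≤ a := by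
      intro x
      by_contra hcon
      push Not at hcon
      exact h1 ⟨x, hcon.le⟩
    refine ⟨W (bk 1 κ) 1 E (fun y => σ * ξ y), hw, fun x => ?_⟩
    have h3 := W_sol (pen 1 κ one_pos hκ0) E hE (fun y => σ * ξ y) x
    rw [good_clamp_eq _ hV, bk_lin 1 κ _ ((hw x).trans ha8), one_mul] at h3
    exact h3

/-- a power bound for the Gaussian tail -/
theorem gexp (σ : ℝ) (hσ : 0 < σ) : Real.exp (-(1 / (2 * σ ^ 2))) ≤ 3840 * σ ^ 10 := by
  have hx : 0 < 1 / (2 * σ ^ 2) := by positivity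
  obtain ⟨x, hxd⟩ : ∃ x : ℝ, x = 1 / (2 * σ ^ 2) := ⟨_, rfl⟩
  rw [← hxd] at hx ⊢
  have h1 : x ^ 5 / 120 ≤ Real.exp x := by
    have h2 := Real.pow_div_factorial_le_exp x hx.le 5
    norm_num [Nat.factorial] at h2
    exact h2
  rw [Real.exp_neg, inv_le_comm₀ (Real.exp_pos _) (by positivity)]
  refine le_trans (le_of_eq ?_) h1
  rw [hxd]
  field_simp
  norm_num

theorem fin3G (η : ℝ) (hη : 0 < η) (hη' : η ≤ 1) :
    ∃ K : ℝ, 1 ≤ K ∧ ∀ σ : ℝ, 0 < σ → K * σ ≤ 1 → ∃ Es : ℝ, |Es| ≤ 1 ∧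
      (∀ (L : ℕ) [NeZero L], K * (σ ^ 2 * L) ≤ 1 →
        ∃ G : Set (AE.T 3 L → ℝ), MeasurableSet G ∧
          1 - K * Real.exp (-(1 / (K * (σ ^ 2 * L)))) ≤
            (Measure.pi fun _ : AE.T 3 L => gaussianReal 0 1).real G ∧
          ∀ V ∈ G, AE.Core.FlatE σ η (K / (L : ℝ) ^ 2) Es V) ∧
      ∀ κ : ℝ, K * (σ ^ 4 * Real.log (Real.log (1 / σ)) ^ 2) ≤ κ → κ ≤ 1 →
        ∀ᵐ ω ∂(Measure.infinitePi fun _ : Zd 3 => gaussianReal 0 1),
          LO.Main.Dec 3 (-1) (fun x => σ * ω x) (Set.Iic (Es - 2 * (3 : ℕ) - κ))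
            (Real.sqrt κ / (K * Real.log (2 / (κ * σ)))) := by
  obtain ⟨C, ρ0, hC, hρ0, Hb⟩ := Pool.Agent.K3h4.AN.Be.belowS 3 (by norm_num) 1 one_pos
  obtain ⟨A, hA, HA⟩ := rh3
  obtain ⟨C2, hC2, Hflat⟩ := AE.Core2.gen 3 le_rfl
  have hreg := LO.Lw.reg_gauss
  have hC0 : 0 < C := by linarith
  have hA0 : 0 < A := by linarith
  have hC20 : 0 < C2 := by linarith
  have hP16 : (2 : ℝ) ^ 42 * Real.exp (-(3 * 16)) ≤ 1 / 64 := by
    have h1 : Real.exp (-(3 * 16)) = (Real.exp (-1)) ^ 48 := by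
      rw [← Real.exp_nat_mul]; norm_num
    have h2 : Real.exp (-1) ≤ 2 / 5 := by
      rw [Real.exp_neg, inv_le_comm₀ (Real.exp_pos _) (by norm_num)]
      have := Real.exp_one_gt_d9
      norm_num
      linarith
    rw [h1]
    have h3 : Real.exp (-1) ^ 48 ≤ (2 / 5) ^ 48 := pow_le_pow_left₀ (Real.exp_pos _).le h2 48
    calc (2 : ℝ) ^ 42 * Real.exp (-1) ^ 48 ≤ 2 ^ 42 * (2 / 5) ^ 48 := by gcongr
      _ ≤ 1 / 64 := by norm_num
  obtain ⟨a, ha⟩ : ∃ z : ℝ, z = min (1 / 8) (η / C2) := ⟨_, rfl⟩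
  have ha0 : 0 < a := by rw [ha]; positivity
  have ha8 : a ≤ 1 / 8 := by rw [ha]; exact min_le_left _ _
  have haC : a ≤ η / C2 := by rw [ha]; exact min_le_right _ _
  obtain ⟨c0, hc0⟩ : ∃ z : ℝ, z = a ^ 2 / (768 * A) := ⟨_, rfl⟩
  have hc00 : 0 < c0 := by rw [hc0]; positivity
  have hc04 : c0 ≤ 1 / 4 := by
    rw [hc0, div_le_iff₀ (by positivity)]
    nlinarith
  obtain ⟨S, hS⟩ : ∃ z : ℝ, z = 122880 * A := ⟨_, rfl⟩
  have hS0 : 0 < S := by rw [hS]; positivity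
  obtain ⟨K1, hK1⟩ : ∃ z : ℝ, z = S ^ 2 := ⟨_, rfl⟩
  have hS1 : 1 ≤ S := by rw [hS]; linarith
  have hK11 : 1 ≤ K1 := by rw [hK1]; exact one_le_pow₀ hS1
  -- the constant for the flat part
  obtain ⟨N0, hN0⟩ : ∃ z : ℝ, z = 2 ^ 41 * A := ⟨_, rfl⟩
  have hN00 : 0 < N0 := by rw [hN0]; positivity
  have hlog0 : 0 ≤ Real.log (32 * N0 / a) := by
    apply Real.log_nonneg
    rw [le_div_iff₀ ha0, hN0]
    linarith
  obtain ⟨kf, hkf⟩ : ∃ z : ℝ, z = 16 / c0 + Real.log (32 * N0 / a) / c0 + S := ⟨_, rfl⟩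
  have hkfp1 : 0 ≤ 16 / c0 := by positivity
  have hkfp2 : 0 ≤ Real.log (32 * N0 / a) / c0 := by positivity
  have hkf1 : 1 ≤ kf := by linarith
  have hkf0 : 0 < kf := by linarith
  have hkfc1 : 16 ≤ c0 * kf := by
    have h1 : c0 * kf = 16 + Real.log (32 * N0 / a) + c0 * S := by
      rw [hkf]; field_simp
    rw [h1]
    have : 0 < c0 * S := by positivity
    linarith
  have hkfc2 : Real.log (32 * N0 / a) ≤ c0 * kf := by
    have h1 : c0 * kf = 16 + Real.log (32 * N0 / a) + c0 * S := by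
      rw [hkf]; field_simp
    rw [h1]
    have : 0 < c0 * S := by positivity
    linarith
  obtain ⟨Z, hZ⟩ : ∃ z : ℝ, z = 2 ^ 44 * A * (729 * C ^ 3) := ⟨_, rfl⟩
  have hZ0 : 0 < Z := by rw [hZ]; positivity
  obtain ⟨m0, hm0⟩ : ∃ z : ℝ, z = min (ρ0 / 4) (1 / 1024) := ⟨_, rfl⟩
  have hm00 : 0 < m0 := by rw [hm0]; positivity
  obtain ⟨lm, hlm⟩ : ∃ z : ℝ, z = Z / m0 + 81 := ⟨_, rfl⟩
  have hZm0 : 0 < Z / m0 := by positivity
  obtain ⟨Y, hYd⟩ : ∃ z : ℝ, z = 729 * C ^ 3 * 7680 / m0 := ⟨_, rfl⟩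
  have hY0 : 0 < Y := by rw [hYd]; positivity
  obtain ⟨K, hK⟩ : ∃ z : ℝ, z = kf + 1 / c0 + 2 * N0 + 4 * K1 + 30000 * kf ^ 2 + Real.exp lm +
    8 * C + 8 + Y := ⟨_, rfl⟩
  have hKc0 : 0 ≤ 1 / c0 := by positivity
  have hKkf : 0 ≤ 30000 * kf ^ 2 := by positivity
  have hKe : 0 < Real.exp lm := Real.exp_pos _
  have hkf2 : 1 ≤ kf ^ 2 := one_le_pow₀ hkf1
  have hK8 : 30000 ≤ K := by linarith
  have hK0 : 0 < K := by linarith
  have hK4C : 4 * C ≤ K := by linarith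
  refine ⟨K, by linarith, ?_⟩
  intro lam hlam hKl
  have hlam8 : lam ≤ 1 / 30000 := by
    have : 30000 * lam ≤ K * lam := by gcongr
    linarith
  have hlam1 : lam ≤ 1 := by linarith
  have hlam2 : 0 < lam ^ 2 := by positivity
  have hlamK : K ≤ 1 / lam := by rw [le_div_iff₀ hlam]; exact hKl
  obtain ⟨l, hl⟩ : ∃ z : ℝ, z = Real.log (1 / lam) := ⟨_, rfl⟩
  have hllm : lm ≤ l := by
    rw [hl, Real.le_log_iff_exp_le (by positivity)]
    linarith
  have hl81 : 81 ≤ l := by linarith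
  have hl3 : 3 ≤ l := by linarith
  have hl0 : 0 < l := by linarith
  have hlle : l ≤ 1 / lam := by
    rw [hl]; exact Real.log_le_self (by positivity)
  obtain ⟨ll, hll⟩ : ∃ z : ℝ, z = Real.log l := ⟨_, rfl⟩
  have hll1 : 1 ≤ ll := by
    rw [hll, Real.le_log_iff_exp_le hl0]
    have := Real.exp_one_lt_d9
    linarith
  have hll4 : 4 ≤ ll := by
    rw [hll, Real.le_log_iff_exp_le hl0]
    have h1 : Real.exp 4 = Real.exp 1 ^ 4 := by
      rw [← Real.exp_nat_mul]; norm_num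
    have h2 : Real.exp 1 ^ 4 ≤ 3 ^ 4 :=
      pow_le_pow_left₀ (Real.exp_pos _).le (by linarith [Real.exp_one_lt_d9]) 4
    rw [h1]
    norm_num at h2
    linarith
  have hlll : ll ≤ l := by rw [hll]; exact Real.log_le_self hl0.le
  have hll0 : 0 < ll := by linarith
  have hll2 : 1 ≤ ll ^ 2 := one_le_pow₀ hll1
  have hCl : 3 ≤ C * l := by
    calc (3 : ℝ) = 1 * 3 := by norm_num
      _ ≤ C * l := by gcongr
  have hge := gexp lam hlam
  -- the flat tori
  have hflat : ∀ (L : ℕ) [NeZero L], kf * (lam ^ 2 * L) ≤ 1 → ∃ E : ℝ, |E| ≤ 1 ∧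
      ∃ G : Set (AE.T 3 L → ℝ), MeasurableSet G ∧
          1 - (2 * N0 + 1) * Real.exp (-(c0 / (lam ^ 2 * L))) ≤
            (Measure.pi fun _ : AE.T 3 L => gaussianReal 0 1).real G ∧
          (1 : ℝ) / 2 < (Measure.pi fun _ : AE.T 3 L => gaussianReal 0 1).real G ∧
          ∀ V ∈ G, AE.Core.FlatE lam η (1 / (L : ℝ) ^ 2) E V := by
    intro L _ hL
    have hLpos : (0 : ℝ) < L := AE.Core.L_pos (L := L)
    have hL1 : (1 : ℝ) ≤ L := by exact_mod_cast Nat.pos_of_ne_zero (NeZero.ne L)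
    have hsq : Real.sqrt (1 / (4 * (L : ℝ) ^ 2)) = 1 / (2 * L) := by
      have : 1 / (4 * (L : ℝ) ^ 2) = (1 / (2 * L)) ^ 2 := by
        field_simp
        norm_num
      rw [this, Real.sqrt_sq (by positivity)]
    have hyy : yy (fun κ => A / Real.sqrt κ) lam (1 / (4 * (L : ℝ) ^ 2)) a = c0 / (lam ^ 2 * L) := by
      unfold yy
      beta_reduce
      rw [hsq, hc0]
      field_simp
      norm_num
    have hnn : nn 3 L (fun κ => A / Real.sqrt κ) (2 ^ 28) (1 / (4 * (L : ℝ) ^ 2)) = N0 := by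
      rw [nn3 L A _ (by positivity), hsq, hN0]
      field_simp
    have hcy : c0 * kf ≤ c0 / (lam ^ 2 * L) := by
      rw [le_div_iff₀ (by positivity)]
      calc c0 * kf * (lam ^ 2 * L) = c0 * (kf * (lam ^ 2 * L)) := by ring
        _ ≤ c0 * 1 := by gcongr
        _ = c0 := mul_one _
    have hne : N0 * Real.exp (-(c0 / (lam ^ 2 * L))) ≤ a / 32 := by
      have h1 : Real.exp (-(c0 / (lam ^ 2 * L))) ≤ Real.exp (-Real.log (32 * N0 / a)) :=
        Real.exp_le_exp.2 (by linarith)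
      rw [Real.exp_neg (Real.log _), Real.exp_log (by positivity)] at h1
      calc N0 * Real.exp (-(c0 / (lam ^ 2 * L))) ≤ N0 * (32 * N0 / a)⁻¹ := by gcongr
        _ = a / 32 := by field_simp
    obtain ⟨E, hE, G, hG, hP, hw⟩ := goodG (HA L) lam hlam 16 (by norm_num) hP16
      (1 / (4 * (L : ℝ) ^ 2)) a le_rfl ha0 ha8 (by rw [hyy]; linarith) (by rw [hyy, hnn]; exact hne)
    rw [hyy, hnn] at hP
    have hLl : (L : ℝ) ≤ 1 / lam ^ 2 := by
      rw [le_div_iff₀ hlam2]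
      calc (L : ℝ) * lam ^ 2 = 1 * (lam ^ 2 * L) := by ring
        _ ≤ kf * (lam ^ 2 * L) := by gcongr
        _ ≤ 1 := hL
    have hL3 : (L : ℝ) ^ 3 ≤ 1 / lam ^ 6 := by
      calc (L : ℝ) ^ 3 ≤ (1 / lam ^ 2) ^ 3 := by gcongr
        _ = 1 / lam ^ 6 := by field_simp
    -- the Gaussian part
    have hg1 : (L : ℝ) ^ 3 * (2 * Real.exp (-(1 / (2 * lam ^ 2)))) ≤ 1 / 4 := by
      calc (L : ℝ) ^ 3 * (2 * Real.exp (-(1 / (2 * lam ^ 2)))) ≤
          1 / lam ^ 6 * (2 * (3840 * lam ^ 10)) := by gcongr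
        _ = 7680 * lam ^ 4 := by field_simp; norm_num
        _ ≤ 7680 * lam ^ 2 := by
            refine mul_le_mul_of_nonneg_left (pow_le_pow_of_le_one hlam.le hlam1 (by norm_num))
              (by norm_num)
        _ ≤ 7680 * (1 / 30000) ^ 2 := by gcongr
        _ ≤ 1 / 4 := by norm_num
    have hg2 : (L : ℝ) ^ 3 * (2 * Real.exp (-(1 / (2 * lam ^ 2)))) ≤
        1 * Real.exp (-(c0 / (lam ^ 2 * L))) := by
      have e1 : Real.exp (-(1 / (2 * lam ^ 2))) = Real.exp (-(1 / (2 * (lam * Real.sqrt 2) ^ 2))) *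
          Real.exp (-(1 / (4 * lam ^ 2))) := by
        rw [← Real.exp_add]
        congr 1
        rw [mul_pow, Real.sq_sqrt (by norm_num)]
        field_simp
        norm_num
      have e2 := gexp (lam * Real.sqrt 2) (by positivity)
      have e3 : (lam * Real.sqrt 2) ^ 10 = 32 * lam ^ 10 := by
        have : (lam * Real.sqrt 2) ^ 10 = lam ^ 10 * (Real.sqrt 2 ^ 2) ^ 5 := by ring
        rw [this, Real.sq_sqrt (by norm_num)]
        ring
      rw [e3] at e2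
      have e4 : Real.exp (-(1 / (4 * lam ^ 2))) ≤ Real.exp (-(c0 / (lam ^ 2 * L))) := by
        refine Real.exp_le_exp.2 (neg_le_neg ?_)
        rw [div_le_div_iff₀ (by positivity) (by positivity)]
        calc c0 * (4 * lam ^ 2) ≤ 1 / 4 * (4 * lam ^ 2) := by gcongr
          _ = lam ^ 2 * 1 := by ring
          _ ≤ lam ^ 2 * L := by gcongr
          _ = 1 * (lam ^ 2 * L) := by ring
      rw [e1]
      calc (L : ℝ) ^ 3 * (2 * (Real.exp (-(1 / (2 * (lam * Real.sqrt 2) ^ 2))) *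
            Real.exp (-(1 / (4 * lam ^ 2))))) ≤
          1 / lam ^ 6 * (2 * ((3840 * (32 * lam ^ 10)) * Real.exp (-(c0 / (lam ^ 2 * L))))) := by
            gcongr
        _ = (245760 * lam ^ 4) * Real.exp (-(c0 / (lam ^ 2 * L))) := by field_simp; norm_num
        _ ≤ 1 * Real.exp (-(c0 / (lam ^ 2 * L))) := by
            refine mul_le_mul_of_nonneg_right ?_ (Real.exp_pos _).le
            calc 245760 * lam ^ 4 ≤ 245760 * lam ^ 2 := by
                  refine mul_le_mul_of_nonneg_left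
                    (pow_le_pow_of_le_one hlam.le hlam1 (by norm_num)) (by norm_num)
              _ ≤ 245760 * (1 / 30000) ^ 2 := by gcongr
              _ ≤ 1 := by norm_num
    refine ⟨E, hE, G, hG, by linarith, ?_, fun V hV => ?_⟩
    · have : 2 * (N0 * Real.exp (-(c0 / (lam ^ 2 * L)))) ≤ 1 / 128 := by linarith
      linarith
    · obtain ⟨w, hw1, hw2⟩ := hw V hV
      exact Hflat L lam η E hη hη' V w (fun x => (hw1 x).trans haC) hw2
  -- the largest flat torus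
  set Ls : ℕ := ⌊1 / (kf * lam ^ 2)⌋₊ with hLs
  have hkl1 : kf * lam ^ 2 ≤ 1 := by
    have h1 : kf * lam ≤ 1 := by
      calc kf * lam ≤ K * lam := by gcongr; linarith
        _ ≤ 1 := hKl
    calc kf * lam ^ 2 = (kf * lam) * lam := by ring
      _ ≤ 1 * 1 := by gcongr
      _ = 1 := by norm_num
  have hX1 : 1 ≤ 1 / (kf * lam ^ 2) := by rw [le_div_iff₀ (by positivity)]; linarith
  have hLs1 : 1 ≤ Ls := Nat.le_floor (by push_cast; exact hX1)
  have hLs0 : (0 : ℝ) < Ls := by exact_mod_cast hLs1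
  have : NeZero Ls := ⟨by omega⟩
  have hLsle : (Ls : ℝ) ≤ 1 / (kf * lam ^ 2) := Nat.floor_le (by positivity)
  have hLsge : 1 / (2 * (kf * lam ^ 2)) ≤ Ls := by
    have h1 : 1 / (kf * lam ^ 2) < Ls + 1 := Nat.lt_floor_add_one _
    have h2 : (1 : ℝ) ≤ Ls := by exact_mod_cast hLs1
    have h3 : 1 / (2 * (kf * lam ^ 2)) = (1 / (kf * lam ^ 2)) / 2 := by field_simp
    rw [h3]; linarith
  have hLsk : kf * (lam ^ 2 * Ls) ≤ 1 := by
    rw [le_div_iff₀ (by positivity)] at hLsle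
    linarith
  obtain ⟨Es, hEs, Gs, hGs, hPs, hPs2, hfs⟩ := hflat Ls hLsk
  have haps : ∀ V ∈ Gs, Mc.ApE lam (1 / (Ls : ℝ) ^ 2) Es V := fun V hV =>
    Mc.of_flat lam η _ Es hη' V (hfs V hV)
  have hLsinv : 1 / (Ls : ℝ) ^ 2 ≤ 4 * kf ^ 2 * lam ^ 4 := by
    rw [div_le_iff₀ (by positivity)]
    have h1 : 1 ≤ 2 * (kf * lam ^ 2) * Ls := by
      rw [div_le_iff₀ (by positivity)] at hLsge
      linarith
    have h2 : 1 ^ 2 ≤ (2 * (kf * lam ^ 2) * Ls) ^ 2 := pow_le_pow_left₀ (by norm_num) h1 2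
    linarith
  refine ⟨Es, hEs, ?_, ?_⟩
  · -- flat ground states
    intro L _ hL
    have hLpos : (0 : ℝ) < L := AE.Core.L_pos (L := L)
    have hKL : kf * (lam ^ 2 * L) ≤ 1 := by
      refine le_trans ?_ hL
      gcongr
      linarith
    have hLLs : L ≤ Ls := by
      apply Nat.le_floor
      rw [le_div_iff₀ (by positivity)]
      linarith
    obtain ⟨E, hE, G, hG, hP, hPG, hf⟩ := hflat L hKL
    have hel := Mc.el 3 (by norm_num) (gaussianReal 0 1) lam L Ls hLLs E Es (1 / (L : ℝ) ^ 2)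
      (1 / (Ls : ℝ) ^ 2)
      G Gs hG hPG hPs2 (fun V hV => Mc.of_flat lam η _ E hη' V (hf V hV)) haps
    refine ⟨G, hG, ?_, fun V hV => ?_⟩
    · refine le_trans ?_ hP
      have h1 : Real.exp (-(c0 / (lam ^ 2 * L))) ≤ Real.exp (-(1 / (K * (lam ^ 2 * L)))) := by
        refine Real.exp_le_exp.2 (neg_le_neg ?_)
        rw [← div_div]
        gcongr
        rw [div_le_iff₀ hK0]
        have h2 : 1 / c0 ≤ K := by linarith
        rw [div_le_iff₀ hc00] at h2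
        linarith
      have h2 : (2 * N0 + 1) * Real.exp (-(c0 / (lam ^ 2 * L))) ≤
          K * Real.exp (-(1 / (K * (lam ^ 2 * L)))) := by
        gcongr
        linarith
      linarith
    · obtain ⟨E0, ψ, h1, h2⟩ := hf V hV
      refine ⟨E0, ψ, ?_, h2⟩
      have e1 : E0 - Es = (E0 - E) + (E - Es) := by ring
      rw [e1]
      refine (abs_add_le _ _).trans ?_
      have e2 : 1 / (Ls : ℝ) ^ 2 ≤ 1 / (L : ℝ) ^ 2 := by
        apply one_div_le_one_div_of_le (by positivity)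
        have : (L : ℝ) ≤ Ls := by exact_mod_cast hLLs
        gcongr
      have e3 : 3075 / (L : ℝ) ^ 2 ≤ K / (L : ℝ) ^ 2 := by
        gcongr
        linarith
      have e4 : 3075 / (L : ℝ) ^ 2 = 1 / (L : ℝ) ^ 2 + (1 / (L : ℝ) ^ 2 + 1 / (L : ℝ) ^ 2 +
          1024 * (3 : ℕ) / (L : ℝ) ^ 2) := by
        push_cast
        ring
      linarith
  · -- localization
    set κ0 : ℝ := K1 * (lam ^ 4 * ll ^ 2) with hκ0
    have hκ00 : 0 < κ0 := by positivity
    have hsκ0 : Real.sqrt κ0 = S * (lam ^ 2 * ll) := by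
      rw [hκ0, hK1]
      have : S ^ 2 * (lam ^ 4 * ll ^ 2) = (S * (lam ^ 2 * ll)) ^ 2 := by ring
      rw [this, Real.sqrt_sq (by positivity)]
    have hsκ01 : Real.sqrt κ0 ≤ 1 := by
      rw [hsκ0]
      have h1 : ll ≤ 1 / lam := hlll.trans hlle
      have h2 : lam ^ 2 * ll ≤ lam := by
        calc lam ^ 2 * ll ≤ lam ^ 2 * (1 / lam) := by gcongr
          _ = lam := by field_simp
      have h3 : S ≤ K := by linarith
      calc S * (lam ^ 2 * ll) ≤ K * lam := by gcongr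
        _ ≤ 1 := hKl
    have hsκ00 : 0 < Real.sqrt κ0 := Real.sqrt_pos.2 hκ00
    set X : ℝ := 8 * C * l / Real.sqrt κ0 with hX
    have hX0 : 0 < X := by positivity
    set L0 : ℕ := ⌈X⌉₊ with hL0
    have hL0ge : X ≤ L0 := Nat.le_ceil X
    have hL0lt : (L0 : ℝ) < X + 1 := Nat.ceil_lt_add_one hX0.le
    have hL0pos' : (0 : ℝ) < L0 := by linarith
    have hL0pos : 0 < L0 := by exact_mod_cast hL0pos'
    have : NeZero L0 := ⟨hL0pos.ne'⟩
    have hsL : Real.sqrt κ0 * L0 ≤ 9 * C * l := by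
      calc Real.sqrt κ0 * L0 ≤ Real.sqrt κ0 * (X + 1) := by gcongr
        _ = 8 * C * l + Real.sqrt κ0 := by rw [hX]; field_simp
        _ ≤ 9 * C * l := by linarith
    have hsL2 : 8 * C * l ≤ Real.sqrt κ0 * L0 := by
      calc 8 * C * l = Real.sqrt κ0 * X := by rw [hX]; field_simp
        _ ≤ _ := by gcongr
    have hκL0 : 1 / (4 * (L0 : ℝ) ^ 2) ≤ κ0 := by
      rw [div_le_iff₀ (by positivity)]
      have h1 : (1 : ℝ) ≤ 8 * C * l := by linarith
      have h2 : 1 ^ 2 ≤ (Real.sqrt κ0 * L0) ^ 2 := pow_le_pow_left₀ (by norm_num) (h1.trans hsL2) 2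
      rw [mul_pow, Real.sq_sqrt hκ00.le] at h2
      linarith
    have hyy : yy (fun κ => A / Real.sqrt κ) lam κ0 (1 / 8) = 5 * ll := by
      unfold yy
      beta_reduce
      rw [hsκ0, hS]
      field_simp
      norm_num
    have hexp : Real.exp (-(5 * ll)) = 1 / l ^ 5 := by
      rw [Real.exp_neg, show (5 : ℝ) * ll = ((5 : ℕ) : ℝ) * ll by norm_num, Real.exp_nat_mul, hll,
        Real.exp_log hl0, one_div]
    have hnn : nn 3 L0 (fun κ => A / Real.sqrt κ) (2 ^ 28) κ0 * Real.exp (-(5 * ll)) ≤ m0 := by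
      rw [nn3 L0 A κ0 hκ00, hexp]
      have h1 : (Real.sqrt κ0 * L0) ^ 3 ≤ (9 * C * l) ^ 3 := by gcongr
      calc 2 ^ 44 * A * (Real.sqrt κ0 * L0) ^ 3 * (1 / l ^ 5) ≤
            2 ^ 44 * A * (9 * C * l) ^ 3 * (1 / l ^ 5) := by gcongr
        _ = Z / l ^ 2 := by rw [hZ]; field_simp; norm_num
        _ ≤ m0 := by
            rw [div_le_iff₀ (by positivity)]
            have h2 : Z / m0 ≤ l := by linarith
            rw [div_le_iff₀ hm00] at h2
            have h3 : l * m0 ≤ m0 * l ^ 2 := by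
              have : 1 * (l * m0) ≤ l * (l * m0) := by gcongr; linarith
              linarith
            linarith
    have hm0a : m0 ≤ 1 / 1024 := by rw [hm0]; exact min_le_right _ _
    have hm0b : m0 ≤ ρ0 / 4 := by rw [hm0]; exact min_le_left _ _
    -- the Gaussian part
    have hL0b : (L0 : ℝ) ≤ 9 * C / lam ^ 3 := by
      rw [le_div_iff₀ (by positivity)]
      have h1 : lam ^ 2 ≤ Real.sqrt κ0 := by
        rw [hsκ0]
        calc lam ^ 2 = 1 * (lam ^ 2 * 1) := by ring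
          _ ≤ S * (lam ^ 2 * ll) := by gcongr
      have h2 : lam ^ 2 * L0 ≤ 9 * C * l := (by gcongr : lam ^ 2 * (L0 : ℝ) ≤
        Real.sqrt κ0 * L0).trans hsL
      calc (L0 : ℝ) * lam ^ 3 = (lam ^ 2 * L0) * lam := by ring
        _ ≤ (9 * C * l) * lam := by gcongr
        _ ≤ (9 * C * (1 / lam)) * lam := by gcongr
        _ = 9 * C := by field_simp
    have hgL0 : (L0 : ℝ) ^ 3 * (2 * Real.exp (-(1 / (2 * lam ^ 2)))) ≤ m0 := by
      calc (L0 : ℝ) ^ 3 * (2 * Real.exp (-(1 / (2 * lam ^ 2)))) ≤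
          (9 * C / lam ^ 3) ^ 3 * (2 * (3840 * lam ^ 10)) := by gcongr
        _ = (729 * C ^ 3 * 7680) * lam := by field_simp; norm_num
        _ = (Y * m0) * lam := by rw [hYd]; field_simp
        _ ≤ (K * m0) * lam := by gcongr; linarith
        _ = m0 * (K * lam) := by ring
        _ ≤ m0 * 1 := by gcongr
        _ = m0 := mul_one _
    obtain ⟨E0, hE0, G0, hG0, hP0, hw0⟩ := goodG (HA L0) lam hlam 16 (by norm_num) hP16
      κ0 (1 / 8) hκL0 (by norm_num) le_rfl (by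
        rw [hyy]
        linarith) (by rw [hyy]; linarith)
    rw [hyy] at hP0
    have hap0 : ∀ V ∈ G0, Mc.ApE lam (κ0 * (1 / 8)) E0 V := by
      intro V hV
      obtain ⟨w, hw1, hw2⟩ := hw0 V hV
      exact Mc.of_sol lam κ0 (1 / 8) E0 hκ00.le (by norm_num) V w hw1 hw2
    set ε0 : ℝ := 2 * (nn 3 L0 (fun κ => A / Real.sqrt κ) (2 ^ 28) κ0 * Real.exp (-(5 * ll))) +
      (L0 : ℝ) ^ 3 * (2 * Real.exp (-(1 / (2 * lam ^ 2))))
      with hε0
    have hε00 : 0 ≤ ε0 := by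
      rw [hε0, nn3 L0 A κ0 hκ00]; positivity
    have hε0ρ : ε0 ≤ ρ0 := by linarith
    have hε0h : ε0 ≤ 1 / 128 := by linarith
    have hLsL0 : Ls ≤ L0 := by
      have h1 : 1 / (kf * lam ^ 2) ≤ X := by
        rw [hX, hsκ0, div_le_div_iff₀ (by positivity) (by positivity)]
        have h2 : ll * S ≤ 8 * C * l * kf := by
          have h3 : S ≤ kf := by linarith
          have h4 : ll ≤ 8 * C * l := by
            have h5 : 1 * l ≤ C * l := by gcongr
            linarith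
          calc ll * S ≤ (8 * C * l) * kf := by gcongr
            _ = _ := by ring
        calc 1 * (S * (lam ^ 2 * ll)) = (ll * S) * lam ^ 2 := by ring
          _ ≤ (8 * C * l * kf) * lam ^ 2 := by gcongr
          _ = 8 * C * l * (kf * lam ^ 2) := by ring
      have h2 : (Ls : ℝ) ≤ L0 := hLsle.trans (h1.trans hL0ge)
      exact_mod_cast h2
    have hel := Mc.el 3 (by norm_num) (gaussianReal 0 1) lam Ls L0 hLsL0 Es E0 (1 / (Ls : ℝ) ^ 2)
      (κ0 * (1 / 8))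
      Gs G0 hGs hPs2 (by
        have : 1 - ε0 ≤ (Measure.pi fun _ : AE.T 3 L0 => gaussianReal 0 1).real G0 := hP0
        linarith) haps hap0
    have hE0s : |Es - E0| ≤ 12292 * kf ^ 2 * (lam ^ 4 * ll ^ 2) + κ0 * (1 / 8) := by
      have e1 : 1024 * ((3 : ℕ) : ℝ) / (Ls : ℝ) ^ 2 = 3072 * (1 / (Ls : ℝ) ^ 2) := by
        push_cast; ring
      rw [e1] at hel
      have h1 : lam ^ 4 * 1 ≤ lam ^ 4 * ll ^ 2 := by
        gcongr
      have h2 : 12292 * kf ^ 2 * (lam ^ 4 * 1) ≤ 12292 * kf ^ 2 * (lam ^ 4 * ll ^ 2) := by gcongr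
      linarith
    have hT := Mc.torusBound (gaussianReal 0 1) lam (κ0 * (1 / 8)) E0 ε0 G0 hG0 hP0 hap0
    intro κ hκ hκ1
    rw [← hl, ← hll] at hκ
    have hκK : 4 * κ0 + 30000 * kf ^ 2 * (lam ^ 4 * ll ^ 2) + 8 * (lam ^ 4 * ll ^ 2) ≤ κ := by
      refine le_trans ?_ hκ
      rw [hκ0]
      have h1 : 0 < lam ^ 4 * ll ^ 2 := by positivity
      have h2 : 4 * K1 + 30000 * kf ^ 2 + 8 ≤ K := by linarith
      have h3 := mul_le_mul_of_nonneg_right h2 h1.le
      linarith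
    have hkfl : 0 ≤ 30000 * kf ^ 2 * (lam ^ 4 * ll ^ 2) := by positivity
    have hlp : 0 < lam ^ 4 * ll ^ 2 := by positivity
    have hκκ0 : κ0 ≤ κ := by linarith
    have hκpos : 0 < κ := by linarith
    have hκ8 : 8 * lam ^ 4 ≤ κ := by
      have h1 : lam ^ 4 * 1 ≤ lam ^ 4 * ll ^ 2 := by
        gcongr
      linarith
    have hlogκ : Real.log (2 / (κ / 2 * lam)) ≤ 5 * l := by
      have h1 : 2 / (κ / 2 * lam) ≤ (1 / lam) ^ 5 := by
        rw [div_le_iff₀ (by positivity)]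
        have h3 : (1 / lam) ^ 5 * (κ / 2 * lam) = κ / (2 * lam ^ 4) := by
          field_simp
        rw [h3, le_div_iff₀ (by positivity)]
        have h4 := pow_pos hlam 4
        linarith
      have h2 := Real.log_le_log (by positivity) h1
      rw [Real.log_pow] at h2
      rw [hl]
      exact_mod_cast h2
    have hsqκ : Real.sqrt κ0 ≤ Real.sqrt (κ / 2) := Real.sqrt_le_sqrt (by linarith)
    have hcond : C * Real.log (2 / (κ / 2 * lam)) / Real.sqrt (κ / 2) ≤ L0 := by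
      refine le_trans ?_ hL0ge
      rw [hX]
      calc C * Real.log (2 / (κ / 2 * lam)) / Real.sqrt (κ / 2) ≤ C * (5 * l) / Real.sqrt κ0 := by
            gcongr
        _ ≤ 8 * C * l / Real.sqrt κ0 := by
            apply div_le_div_of_nonneg_right _ hsκ00.le
            have : 0 < C * l := by positivity
            linarith
    have hb := Hb (gaussianReal 0 1) hreg lam hlam hlam1 L0 (E0 - κ0 * (1 / 8)) ε0 hε00 hε0ρ hT
      (κ / 2) (by positivity) (by linarith) hcond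
    filter_upwards [hb] with ω hω
    refine LO.Main.dec_mono _ _ _ _ _ _ hω ?_ ?_
    · apply Set.Iic_subset_Iic.2
      obtain ⟨h1, h2⟩ := abs_le.1 hE0s
      linarith
    · exact rate C K κ lam hC hK4C hκpos hκ1 hlam hlam1

end Pool.Agent.H69.AN
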