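import Pool.Graph.R_seed8.H4R2.LO.Main
import Pool.Graph.R_pool_sql_team_seeded_5cf16337.K3h4.AN.Dl

/-! # The spectral measure of a site, given by its Borel transform, has the expected moments -/

set_option autoImplicit false

open scoped BigOperators ENNReal
open MeasureTheory

namespace Pool.Agent.H69.AN.S1

open Pool.Agent.H4R2.LO
open Pool.Agent.H541R3.AND.Trans (HZ QZ FS pair_single symm_iter)

theorem ne_of_im {z : ℂ} (hz : z.im ≠ 0) (E : ℝ) : (E : ℂ) - z ≠ 0 := by
  intro h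
  have := congrArg Complex.im h
  simp at this
  exact hz this

theorem meas_res (z : ℂ) : Measurable fun E : ℝ => ((E : ℂ) - z)⁻¹ := by fun_prop

theorem norm_res_le {z : ℂ} (hz : z.im ≠ 0) (E : ℝ) : ‖((E : ℂ) - z)⁻¹‖ ≤ |z.im|⁻¹ := by
  rw [norm_inv]
  apply inv_anti₀ (abs_pos.2 hz)
  have := Complex.abs_im_le_norm ((E : ℂ) - z)
  simpa using this

theorem int_mul_res (μ : Measure ℝ) {z : ℂ} (hz : z.im ≠ 0) {f : ℝ → ℂ}
    (hf : Integrable f μ) : Integrable (fun E => f E * ((E : ℂ) - z)⁻¹) μ := by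
  apply hf.mul_bdd (c := |z.im|⁻¹) (meas_res z).aestronglyMeasurable
  exact Filter.Eventually.of_forall fun E => norm_res_le hz E

/-- the eigenvalue equation in the spectral representation -/
theorem eigeq {d : ℕ} (τ : ℝ) (W : Zd d → ℝ) (g : Zd d → ℂ) (μ : Measure ℝ) [IsFiniteMeasure μ]
    (hsp : ∀ z : ℂ, z.im ≠ 0 → ∃ u : Zd d → ℂ, L2f u ∧ (∀ x, Hg τ W u x - z * u x = g x) ∧
      ∫ E : ℝ, ((E : ℂ) - z)⁻¹ ∂μ = ∑' x, (starRingEnd ℂ) (g x) * u x)
    (φ : Zd d → ℝ → ℂ) (hL2 : ∀ x, MemLp (φ x) 2 μ)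
    (hres : ∀ z : ℂ, z.im ≠ 0 → ∀ u : Zd d → ℂ, L2f u → (∀ x, Hg τ W u x - z * u x = g x) →
        ∀ x, u x = ∫ E, φ x E * ((E : ℂ) - z)⁻¹ ∂μ)
    (hg0 : ∀ x, g x = ∫ E, φ x E ∂μ) :
    ∀ x, ∀ᵐ E ∂μ, Hg τ W (fun y => φ y E) x = (E : ℂ) * φ x E := by
  have hint : ∀ x, Integrable (φ x) μ := fun x => (hL2 x).integrable (by norm_num)
  intro x
  have hHint : Integrable (fun E => Hg τ W (fun y => φ y E) x) μ := by
    unfold Hg
    apply Integrable.add
    · apply Integrable.const_mul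
      apply integrable_finsetSum
      intro i _
      exact (hint _).add (hint _)
    · exact (hint x).const_mul _
  have hGint : ∀ z : ℂ, z.im ≠ 0 → Integrable (fun E : ℝ =>
      Hg τ W (fun y => φ y E) x * ((E : ℂ) - z)⁻¹ -
        (φ x E + z * (φ x E * ((E : ℂ) - z)⁻¹))) μ := by
    intro z hz
    exact (int_mul_res μ hz hHint).sub ((hint x).add ((int_mul_res μ hz (hint x)).const_mul z))
  have hG0 : ∀ z : ℂ, z.im ≠ 0 → ∫ E : ℝ,
      (Hg τ W (fun y => φ y E) x * ((E : ℂ) - z)⁻¹ -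
        (φ x E + z * (φ x E * ((E : ℂ) - z)⁻¹))) ∂μ = 0 := by
    intro z hz
    obtain ⟨u, hu, hue, -⟩ := hsp z hz
    have hux := hres z hz u hu hue
    have i1 : Integrable (fun E : ℝ => φ x E + z * (φ x E * ((E : ℂ) - z)⁻¹)) μ :=
      (hint x).add ((int_mul_res μ hz (hint x)).const_mul z)
    rw [integral_sub (int_mul_res μ hz hHint) i1,
      integral_add (hint x) ((int_mul_res μ hz (hint x)).const_mul z), integral_const_mul,
      ← hux x, ← hg0 x]
    have hH : ∫ E : ℝ, Hg τ W (fun y => φ y E) x * ((E : ℂ) - z)⁻¹ ∂μ = Hg τ W u x := by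
      have h1 : ∀ E : ℝ, Hg τ W (fun y => φ y E) x * ((E : ℂ) - z)⁻¹ =
          (τ : ℂ) * ∑ i : Fin d, (φ (x + Pi.single i 1) E * ((E : ℂ) - z)⁻¹ +
            φ (x - Pi.single i 1) E * ((E : ℂ) - z)⁻¹) +
            (W x : ℂ) * (φ x E * ((E : ℂ) - z)⁻¹) := by
        intro E
        unfold Hg
        rw [add_mul, mul_assoc, Finset.sum_mul, mul_assoc]
        congr 2
        apply Finset.sum_congr rfl
        intro i _
        ring
      simp_rw [h1]
      rw [integral_add, integral_const_mul, integral_const_mul, integral_finsetSum]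
      · unfold Hg
        rw [← hux x]
        congr 2
        apply Finset.sum_congr rfl
        intro i _
        rw [integral_add (int_mul_res μ hz (hint _)) (int_mul_res μ hz (hint _)), ← hux, ← hux]
      · intro i _
        exact (int_mul_res μ hz (hint _)).add (int_mul_res μ hz (hint _))
      · apply Integrable.const_mul
        apply integrable_finsetSum
        intro i _
        exact (int_mul_res μ hz (hint _)).add (int_mul_res μ hz (hint _))
      · exact (int_mul_res μ hz (hint x)).const_mul _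
    rw [hH]
    have := hue x
    linear_combination this
  have hi : ((2 : ℂ) * Complex.I).im ≠ 0 := by simp
  -- the integrable function
  have hkey : ∀ᵐ E ∂μ, (Hg τ W (fun y => φ y E) x * ((E : ℂ) - 2 * Complex.I)⁻¹ -
        (φ x E + (2 * Complex.I) * (φ x E * ((E : ℂ) - 2 * Complex.I)⁻¹))) = 0 := by
    apply Bden.dens μ _ (hGint _ hi)
    intro z hz hz1
    have hzi : z - 2 * Complex.I ≠ 0 := by
      intro h
      have h1 : z = 2 * Complex.I := sub_eq_zero.1 h
      rw [h1] at hz1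
      norm_num at hz1
    have halg : ∀ E : ℝ, (Hg τ W (fun y => φ y E) x * ((E : ℂ) - 2 * Complex.I)⁻¹ -
        (φ x E + (2 * Complex.I) * (φ x E * ((E : ℂ) - 2 * Complex.I)⁻¹))) * ((E : ℂ) - z)⁻¹ =
        (z - 2 * Complex.I)⁻¹ * ((Hg τ W (fun y => φ y E) x * ((E : ℂ) - z)⁻¹ -
        (φ x E + z * (φ x E * ((E : ℂ) - z)⁻¹))) -
        (Hg τ W (fun y => φ y E) x * ((E : ℂ) - 2 * Complex.I)⁻¹ -
        (φ x E + (2 * Complex.I) * (φ x E * ((E : ℂ) - 2 * Complex.I)⁻¹)))) := by
      intro E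
      have e1 := ne_of_im hz E
      have e2 := ne_of_im hi E
      field_simp
      ring
    simp_rw [halg]
    rw [integral_const_mul, integral_sub (hGint z hz) (hGint _ hi), hG0 z hz, hG0 _ hi]
    simp
  filter_upwards [hkey] with E hE
  have e2 := ne_of_im hi E
  have h3 : (Hg τ W (fun y => φ y E) x - (E : ℂ) * φ x E) * ((E : ℂ) - 2 * Complex.I)⁻¹ = 0 := by
    rw [← hE]
    field_simp
    ring
  rcases mul_eq_zero.1 h3 with h4 | h4
  · exact sub_eq_zero.1 h4
  · exact absurd (inv_eq_zero.1 h4) e2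

/-- the cyclic vector is represented by the constant function -/
theorem one {d : ℕ} (τ : ℝ) (W : Zd d → ℝ) (x0 : Zd d) (μ : Measure ℝ) [IsFiniteMeasure μ]
    (hsp : ∀ z : ℂ, z.im ≠ 0 → ∃ u : Zd d → ℂ, L2f u ∧
      (∀ x, Hg τ W u x - z * u x = (Pi.single x0 1 : Zd d → ℂ) x) ∧
      ∫ E : ℝ, ((E : ℂ) - z)⁻¹ ∂μ =
        ∑' x, (starRingEnd ℂ) ((Pi.single x0 1 : Zd d → ℂ) x) * u x)
    (φ : Zd d → ℝ → ℂ) (hL2 : ∀ x, MemLp (φ x) 2 μ)
    (hres : ∀ z : ℂ, z.im ≠ 0 → ∀ u : Zd d → ℂ, L2f u →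
      (∀ x, Hg τ W u x - z * u x = (Pi.single x0 1 : Zd d → ℂ) x) →
        ∀ x, u x = ∫ E, φ x E * ((E : ℂ) - z)⁻¹ ∂μ) :
    ∀ᵐ E ∂μ, φ x0 E = 1 := by
  have hint : Integrable (φ x0) μ := (hL2 x0).integrable (by norm_num)
  have h1 : ∀ᵐ E ∂μ, φ x0 E - 1 = 0 := by
    refine Bden.dens μ _ (hint.sub (integrable_const _)) fun z hz _ => ?_
    obtain ⟨u, hu, hue, hub⟩ := hsp z hz
    have h2 := hres z hz u hu hue x0
    have h3 : ∑' x, (starRingEnd ℂ) ((Pi.single x0 1 : Zd d → ℂ) x) * u x = u x0 := by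
      rw [tsum_eq_single x0]
      · simp
      · intro x hx
        rw [Pi.single_eq_of_ne hx]
        simp
    have e : ∀ E : ℝ, (φ x0 E - 1) * ((E : ℂ) - z)⁻¹ =
        φ x0 E * ((E : ℂ) - z)⁻¹ - 1 * ((E : ℂ) - z)⁻¹ := fun E => by ring
    simp_rw [e]
    rw [integral_sub (int_mul_res μ hz hint) (int_mul_res μ hz (integrable_const _)), ← h2]
    simp only [one_mul]
    rw [hub, h3, sub_self]
  filter_upwards [h1] with E hE
  exact sub_eq_zero.1 hE

theorem QZ_eq {d : ℕ} (lam : ℝ) (V : Zd d → ℝ) : QZ 1 (-1) lam V = HZ lam V := by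
  funext f x
  unfold QZ
  ring

/-- real and imaginary parts of a generalised eigenfunction -/
theorem gen_re {d : ℕ} (lam E : ℝ) (V : Zd d → ℝ) (u : Zd d → ℂ)
    (h : ∀ x, Hg (-1) (fun x => lam * V x + 2 * d) u x = (E : ℂ) * u x) :
    ∀ x, HZ lam V (fun y => (u y).re) x = E * (u x).re := by
  intro x
  have h1 := congrArg Complex.re (h x)
  unfold Hg at h1
  simp only [Complex.add_re, Complex.mul_re, Complex.ofReal_re, Complex.ofReal_im, zero_mul,
    sub_zero, Complex.re_sum] at h1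
  unfold HZ
  rw [← h1]
  have h2 : ∑ i : Fin d, (2 * (u x).re - (u (x + Pi.single i 1)).re - (u (x - Pi.single i 1)).re) =
      2 * d * (u x).re - ∑ i : Fin d, ((u (x + Pi.single i 1)).re + (u (x - Pi.single i 1)).re) := by
    rw [Finset.sum_sub_distrib, Finset.sum_sub_distrib, Finset.sum_add_distrib]
    simp
    ring
  rw [h2]
  ring

/-- **moments** -/
theorem moments {d : ℕ} (lam : ℝ) (V : Zd d → ℝ) (x0 : Zd d) (μ : Measure ℝ)
    (hμ : IsSpec (-1) (fun x => lam * V x + 2 * d) (Pi.single x0 1) μ) (n : ℕ) :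
    Integrable (fun E : ℝ => E ^ n) μ ∧
      ∫ E, E ^ n ∂μ = (HZ lam V)^[n] (Pi.single x0 1) x0 := by
  have hfin : IsFiniteMeasure μ := hμ.1
  have hg : L2f (Pi.single x0 1 : Zd d → ℂ) := by
    unfold L2f
    refine summable_of_hasFiniteSupport ((Set.finite_singleton x0).subset fun x hx => ?_)
    by_contra hc
    apply hx
    have h0 : (Pi.single x0 1 : Zd d → ℂ) x = 0 := Pi.single_eq_of_ne hc _
    simp only [h0]
    simp
  obtain ⟨φ, hmeas, hL2, hle, hres, hg0, hA⟩ := Brep.rep _ _ _ hg μ hμ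
  have hint : ∀ x, Integrable (φ x) μ := fun x => (hL2 x).integrable (by norm_num)
  have e1 := one _ _ x0 μ hμ.2 φ hL2 hres
  have e2 : ∀ᵐ E ∂μ, ∀ x, Hg (-1) (fun x => lam * V x + 2 * d) (fun y => φ y E) x =
      (E : ℂ) * φ x E := ae_all_iff.2 (eigeq _ _ _ μ hμ.2 φ hL2 hres hg0)
  have hfs : FS ((HZ lam V)^[n] (Pi.single x0 1)) := by
    rw [← QZ_eq]
    exact (FS.single x0).iter 1 (-1) lam V n
  have hfs' : (Function.support ((HZ lam V)^[n] (Pi.single x0 1))).Finite := hfs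
  obtain ⟨S, hSz⟩ : ∃ S : Finset (Zd d), ∀ x, x ∉ S →
      (HZ lam V)^[n] (Pi.single x0 1) x = 0 := by
    refine ⟨hfs'.toFinset, fun x hx => ?_⟩
    by_contra hc
    exact hx (hfs'.mem_toFinset.2 hc)
  have key : ∀ᵐ E ∂μ, E ^ n = ∑ x ∈ S, (HZ lam V)^[n] (Pi.single x0 1) x * (φ x E).re := by
    filter_upwards [e1, e2] with E h1 h2
    have h3 := gen_re lam E V (fun y => φ y E) h2
    have h4 := symm_iter 1 (-1) lam V (fun y => (φ y E).re) n _ (FS.single x0)
    rw [pair_single, QZ_eq] at h4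
    have h5 : ∀ m : ℕ, (HZ lam V)^[m] (fun y => (φ y E).re) = fun x => E ^ m * (φ x E).re := by
      intro m
      induction m with
      | zero => funext x; simp
      | succ m ih =>
        rw [Function.iterate_succ_apply', ih]
        funext x
        have h6 := Pool.Agent.H541R3.AND.Deloc.hz_lin lam V (fun y => (φ y E).re) (fun _ => 0)
          (E ^ m) 0 x
        simp only [zero_mul, add_zero] at h6
        rw [h6, h3 x]
        ring
    rw [h5 n] at h4
    beta_reduce at h4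
    rw [h1, Complex.one_re, mul_one] at h4
    rw [← h4]
    exact tsum_eq_sum fun x hx => by rw [hSz x hx, zero_mul]
  have hre : ∀ x, Integrable (fun E => (φ x E).re) μ := fun x => (hint x).re
  have hI : Integrable (fun E => ∑ x ∈ S, (HZ lam V)^[n] (Pi.single x0 1) x * (φ x E).re) μ :=
    integrable_finsetSum _ fun x _ => (hre x).const_mul _
  refine ⟨hI.congr (key.mono fun E hE => hE.symm), ?_⟩
  rw [integral_congr_ae key, integral_finsetSum _ fun x _ => (hre x).const_mul _]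
  simp_rw [integral_const_mul]
  have hr : ∀ x, ∫ E, (φ x E).re ∂μ = (Pi.single x0 1 : Zd d → ℝ) x := by
    intro x
    have h1 : ∫ E, (φ x E).re ∂μ = (∫ E, φ x E ∂μ).re := integral_re (hint x)
    rw [h1, ← hg0 x]
    by_cases hx : x = x0
    · subst hx; simp
    · rw [Pi.single_eq_of_ne hx, Pi.single_eq_of_ne hx]; simp
  simp_rw [hr]
  by_cases h0 : x0 ∈ S
  · rw [Finset.sum_eq_single x0]
    · rw [Pi.single_eq_same, mul_one]
    · intro x _ hx
      rw [Pi.single_eq_of_ne hx, mul_zero]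
    · intro h; exact absurd h0 h
  · rw [hSz x0 h0]
    refine Finset.sum_eq_zero fun x hx => ?_
    have hne : x ≠ x0 := by
      rintro rfl
      exact h0 hx
    rw [Pi.single_eq_of_ne hne, mul_zero]

/-- reflection of the energy: from `Δ + W` to `-Δ + (2d - W)`, up to an overall sign -/
theorem spec_refl {d : ℕ} (τ c : ℝ) (W : Zd d → ℝ) (x0 : Zd d) (μ : Measure ℝ)
    (hμ : IsSpec τ W (Pi.single x0 1) μ) :
    IsSpec (-τ) (fun x => c - W x) (Pi.single x0 1) (μ.map fun E : ℝ => c - E) := by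
  have hfin : IsFiniteMeasure μ := hμ.1
  refine ⟨Measure.isFiniteMeasure_map μ _, fun z hz => ?_⟩
  obtain ⟨u, hu, hue, hub⟩ := hμ.2 ((c : ℂ) - z) (by simpa using hz)
  refine ⟨fun x => -u x, ?_, fun x => ?_, ?_⟩
  · unfold L2f
    simp only [norm_neg]
    exact hu
  · have h1 := hue x
    unfold Hg at h1 ⊢
    have h2 : ∑ i : Fin d, (-u (x + Pi.single i 1) + -u (x - Pi.single i 1)) =
        -∑ i : Fin d, (u (x + Pi.single i 1) + u (x - Pi.single i 1)) := by
      rw [← Finset.sum_neg_distrib]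
      exact Finset.sum_congr rfl fun i _ => by ring
    rw [h2, ← h1]
    push_cast
    ring
  · have hm : Measurable fun E : ℝ => c - E := by fun_prop
    rw [integral_map hm.aemeasurable (meas_res z).aestronglyMeasurable]
    have e : ∀ E : ℝ, (((c - E : ℝ) : ℂ) - z)⁻¹ = -((E : ℂ) - ((c : ℂ) - z))⁻¹ := by
      intro E
      rw [← inv_neg]
      congr 1
      push_cast
      ring
    simp_rw [e]
    rw [integral_neg, hub, ← tsum_neg]
    exact tsum_congr fun x => by ring

/-- shift of the energy -/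
theorem spec_shift {d : ℕ} (τ c : ℝ) (W : Zd d → ℝ) (x0 : Zd d) (μ : Measure ℝ)
    (hμ : IsSpec τ W (Pi.single x0 1) μ) :
    IsSpec τ (fun x => W x + c) (Pi.single x0 1) (μ.map fun E : ℝ => E + c) := by
  have hfin : IsFiniteMeasure μ := hμ.1
  refine ⟨Measure.isFiniteMeasure_map μ _, fun z hz => ?_⟩
  obtain ⟨u, hu, hue, hub⟩ := hμ.2 (z - (c : ℂ)) (by simpa using hz)
  refine ⟨u, hu, fun x => ?_, ?_⟩
  · have h1 := hue x
    unfold Hg at h1 ⊢
    rw [← h1]
    push_cast
    ring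
  · have hm : Measurable fun E : ℝ => E + c := by fun_prop
    rw [integral_map hm.aemeasurable (meas_res z).aestronglyMeasurable, ← hub]
    refine integral_congr_ae (Filter.Eventually.of_forall fun E => ?_)
    beta_reduce
    congr 1
    push_cast
    ring

/-- the staggered transformation -/
theorem spec_stag {d : ℕ} (τ : ℝ) (W : Zd d → ℝ) (x0 : Zd d) (μ : Measure ℝ)
    (hμ : IsSpec τ W (Pi.single x0 1) μ) :
    IsSpec (-τ) W (Pi.single x0 1) μ := by
  have hfin : IsFiniteMeasure μ := hμ.1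
  refine ⟨hfin, fun z hz => ?_⟩
  obtain ⟨u, hu, hue, hub⟩ := hμ.2 z hz
  have hsq : ∀ x : Zd d, Main.sgn x * Main.sgn x = 1 := by
    intro x
    unfold Main.sgn
    rcases Int.even_or_odd (∑ i, x i) with h | h
    · simp [h.neg_one_zpow]
    · simp [h.neg_one_zpow]
  refine ⟨fun x => Main.sgn x0 * (Main.sgn x * u x), ?_, fun x => ?_, ?_⟩
  · unfold L2f
    simp only [norm_mul, Main.sgn_norm, one_mul]
    exact hu
  · have h1 := hue x
    have h2 : Hg (-τ) W (fun x => Main.sgn x0 * (Main.sgn x * u x)) x =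
        Main.sgn x0 * (Main.sgn x * Hg τ W u x) := by
      unfold Hg
      have h3 : ∀ i : Fin d, (Main.sgn x0 * (Main.sgn (x + Pi.single i 1) * u (x + Pi.single i 1)) +
          Main.sgn x0 * (Main.sgn (x - Pi.single i 1) * u (x - Pi.single i 1))) =
          -(Main.sgn x0 * Main.sgn x) * (u (x + Pi.single i 1) + u (x - Pi.single i 1)) := by
        intro i
        rw [Main.sgn_add, Main.sgn_sub]
        ring
      rw [Finset.sum_congr rfl fun i _ => h3 i, ← Finset.mul_sum]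
      push_cast
      ring
    rw [h2]
    have h4 : Main.sgn x0 * (Main.sgn x * Hg τ W u x) - z * (Main.sgn x0 * (Main.sgn x * u x)) =
        Main.sgn x0 * (Main.sgn x * (Hg τ W u x - z * u x)) := by ring
    rw [h4, h1]
    by_cases hx : x = x0
    · subst hx
      rw [Pi.single_eq_same, mul_one, hsq]
    · rw [Pi.single_eq_of_ne hx]
      ring
  · rw [hub]
    refine tsum_congr fun x => ?_
    by_cases hx : x = x0
    · subst hx
      beta_reduce
      rw [Pi.single_eq_same, ← mul_assoc (Main.sgn x), hsq, one_mul]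
    · rw [Pi.single_eq_of_ne hx]
      simp

end Pool.Agent.H69.AN.S1
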